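import Mathlib

/-!
# Spaces of real functions and their Boolean members

`re g` is the real function of a Boolean function `g`, `nb L` the number of Boolean functions in a
space `L` of real functions on a finite set. `coset_le`: a coset (not the space itself) of a space
`Q` which contains the constants has at most `2 ^ (dim Q - 1)` Boolean members.
-/

set_option autoImplicit false
set_option linter.unusedSectionVars false

namespace Pool.Agent.H711.KW

open Module

/-- the real function of a Boolean function -/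
def re {X : Type} (g : X → Bool) : X → ℝ := fun x => if g x then 1 else 0

theorem re_apply {X : Type} (g : X → Bool) (x : X) : re g x = if g x then 1 else 0 := rfl

theorem re_inj {X : Type} {g h : X → Bool} (e : re g = re h) : g = h := by
  funext x
  have := congrFun e x
  unfold re at this
  cases hg : g x <;> cases hh : h x <;> simp_all

theorem re_true {X : Type} : re (fun _ : X => true) = 1 := by
  funext x
  simp [re]

theorem re_false {X : Type} : re (fun _ : X => false) = 0 := by
  funext x
  simp [re]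

theorem re_not {X : Type} (g : X → Bool) : re (fun x => !g x) = 1 - re g := by
  funext x
  unfold re
  cases hg : g x <;> simp [hg]

/-- the number of Boolean functions in a space of functions -/
noncomputable def nb {X : Type} (L : Submodule ℝ (X → ℝ)) : ℕ :=
  Nat.card {g : X → Bool // re g ∈ L}

/-- A space of functions which contains the constants, is spanned by its Boolean members and
separates the points. -/
structure Good {X : Type} (L : Submodule ℝ (X → ℝ)) : Prop where
  one : (1 : X → ℝ) ∈ L
  span : L ≤ Submodule.span ℝ {f | ∃ g : X → Bool, re g ∈ L ∧ re g = f}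
  sep : ∀ x y : X, (∀ g : X → Bool, re g ∈ L → g x = g y) → x = y

/-- composition with a map -/
abbrev pull {X Y : Type} (φ : Y → X) : (X → ℝ) →ₗ[ℝ] (Y → ℝ) := LinearMap.funLeft ℝ ℝ φ

theorem pull_re {X Y : Type} (φ : Y → X) (g : X → Bool) : pull φ (re g) = re (g ∘ φ) := rfl

theorem pull_one {X Y : Type} (φ : Y → X) : pull φ (1 : X → ℝ) = 1 := rfl

theorem rank_null {V W : Type} [AddCommGroup V] [Module ℝ V] [FiniteDimensional ℝ V]
    [AddCommGroup W] [Module ℝ W] (f : V →ₗ[ℝ] W) (L : Submodule ℝ V) :
    finrank ℝ (L.map f) + finrank ℝ (L ⊓ LinearMap.ker f : Submodule ℝ V) = finrank ℝ L := by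
  have h := LinearMap.finrank_range_add_finrank_ker (f.domRestrict L)
  rw [LinearMap.range_domRestrict, LinearMap.ker_domRestrict,
    ← Submodule.finrank_map_subtype_eq, Submodule.map_comap_subtype] at h
  exact h

theorem finrank_map_inj {V W : Type} [AddCommGroup V] [Module ℝ V] [FiniteDimensional ℝ V]
    [AddCommGroup W] [Module ℝ W] (f : V →ₗ[ℝ] W) (L : Submodule ℝ V)
    (h : ∀ v ∈ L, f v = 0 → v = 0) : finrank ℝ (L.map f) = finrank ℝ L := by
  have h1 := rank_null f L
  have h2 : (L ⊓ LinearMap.ker f : Submodule ℝ V) = ⊥ := by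
    rw [eq_bot_iff]
    rintro v ⟨hv, hv'⟩
    exact (Submodule.mem_bot ℝ).mpr (h v hv hv')
  rw [h2, finrank_bot] at h1
  omega

/-- the functions of the space which vanish at a point -/
theorem finrank_vanish {X : Type} [Finite X] (Q : Submodule ℝ (X → ℝ)) (x : X) (q : X → ℝ)
    (hq : q ∈ Q) (hqx : q x ≠ 0) :
    finrank ℝ (Q ⊓ LinearMap.ker (LinearMap.proj x : (X → ℝ) →ₗ[ℝ] ℝ) : Submodule ℝ (X → ℝ)) + 1 =
      finrank ℝ Q := by
  have h := rank_null (LinearMap.proj x : (X → ℝ) →ₗ[ℝ] ℝ) Q
  have h1 : finrank ℝ (Q.map (LinearMap.proj x : (X → ℝ) →ₗ[ℝ] ℝ)) ≤ 1 := by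
    have := Submodule.finrank_le (Q.map (LinearMap.proj x : (X → ℝ) →ₗ[ℝ] ℝ))
    rwa [finrank_self] at this
  have h2 : finrank ℝ (Q.map (LinearMap.proj x : (X → ℝ) →ₗ[ℝ] ℝ)) ≠ 0 := by
    intro h0
    have h3 := Submodule.finrank_eq_zero.mp h0
    have h4 : (q x : ℝ) ∈ Q.map (LinearMap.proj x : (X → ℝ) →ₗ[ℝ] ℝ) := ⟨q, hq, rfl⟩
    rw [h3] at h4
    exact hqx ((Submodule.mem_bot ℝ).mp h4)
  omega

/-- there are `dim Q` points at which the values determine the members of `Q` -/
theorem pts {X : Type} [Finite X] : ∀ (k : ℕ) (Q : Submodule ℝ (X → ℝ)), finrank ℝ Q = k →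
    ∃ a : Fin k → X, ∀ q ∈ Q, (∀ j, q (a j) = 0) → q = 0
  | 0, Q, h => by
    refine ⟨Fin.elim0, fun q hq _ => ?_⟩
    rw [Submodule.finrank_eq_zero.mp h] at hq
    exact (Submodule.mem_bot ℝ).mp hq
  | k + 1, Q, h => by
    have h0 : ∃ q ∈ Q, q ≠ 0 := by
      by_contra hcon
      push Not at hcon
      have : Q = ⊥ := by
        rw [eq_bot_iff]
        exact fun q hq => (Submodule.mem_bot ℝ).mpr (hcon q hq)
      rw [this, finrank_bot] at h
      omega
    obtain ⟨q, hq, hq0⟩ := h0
    obtain ⟨x, hx⟩ := Function.ne_iff.mp hq0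
    have h1 := finrank_vanish Q x q hq hx
    obtain ⟨a, ha⟩ := pts k _ (by omega :
      finrank ℝ (Q ⊓ LinearMap.ker (LinearMap.proj x : (X → ℝ) →ₗ[ℝ] ℝ) : Submodule ℝ (X → ℝ)) = k)
    refine ⟨Fin.cons x a, fun p hp hp0 => ha p ⟨hp, ?_⟩ fun j => ?_⟩
    · exact hp0 0
    · have := hp0 j.succ
      simpa using this

theorem card_bool (k : ℕ) : Nat.card (Fin k → Bool) = 2 ^ k := by
  rw [Nat.card_eq_fintype_card]
  simp

/-- the number of Boolean functions is at most `2 ^ dim` -/
theorem nb_le {X : Type} [Finite X] (Q : Submodule ℝ (X → ℝ)) : nb Q ≤ 2 ^ finrank ℝ Q := by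
  obtain ⟨k, hk⟩ : ∃ k, finrank ℝ Q = k := ⟨_, rfl⟩
  obtain ⟨a, ha⟩ := pts k Q hk
  rw [hk, ← card_bool]
  refine Nat.card_le_card_of_injective (fun g j => g.1 (a j)) fun g g' h => Subtype.ext ?_
  refine re_inj (sub_eq_zero.mp (ha _ (Q.sub_mem g.2 g'.2) fun j => ?_))
  have := congrFun h j
  simp only at this
  rw [Pi.sub_apply, re_apply, re_apply, this, sub_self]

theorem re_int {X : Type} (g : X → Bool) (x : X) : re g x = 0 ∨ re g x = 1 := by
  unfold re
  cases g x <;> simp

/-- **Cosets.** A coset of a space of functions containing the constants, different from the space,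
has at most `2 ^ (dim - 1)` Boolean members. -/
theorem coset_le {X : Type} [Finite X] (Q : Submodule ℝ (X → ℝ)) (h1 : (1 : X → ℝ) ∈ Q)
    (h : X → ℝ) (hh : h ∉ Q) :
    2 * Nat.card {g : X → Bool // re g - h ∈ Q} ≤ 2 ^ finrank ℝ Q := by
  classical
  obtain ⟨k, hk⟩ : ∃ k, finrank ℝ Q = k := ⟨_, rfl⟩
  obtain ⟨a, ha⟩ := pts k Q hk
  rw [hk]
  let v : {g : X → Bool // re g - h ∈ Q} → (Fin k → Bool) := fun g j => g.1 (a j)
  have hv : Function.Injective v := by
    intro g g' e
    refine Subtype.ext (re_inj (sub_eq_zero.mp (ha _ ?_ fun j => ?_)))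
    · have := Q.sub_mem g.2 g'.2
      simpa using this
    · have := congrFun e j
      simp only [v] at this
      rw [Pi.sub_apply, re_apply, re_apply, this, sub_self]
  by_contra hcon
  push Not at hcon
  have key : ∀ τ : (Fin k → Bool) → (Fin k → Bool), Function.Injective τ →
      ∃ g g' : {g : X → Bool // re g - h ∈ Q}, v g' = τ (v g) := by
    intro τ hτ
    by_contra hno
    push Not at hno
    have hinj : Function.Injective (Sum.elim (fun g => τ (v g)) v) := by
      rintro (g | g) (g' | g') e
      · exact congrArg Sum.inl (hv (hτ e))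
      · exact absurd e.symm (hno _ _)
      · exact absurd e (hno _ _)
      · exact congrArg Sum.inr (hv e)
    have := Nat.card_le_card_of_injective _ hinj
    rw [Nat.card_sum, card_bool] at this
    omega
  have hq : ∀ j : Fin k, ∃ q ∈ Q, (∀ i, q (a i) = if i = j then 1 else 0) ∧
      ∀ x, ∃ z : ℤ, q x = z := by
    intro j
    obtain ⟨g, g', e⟩ := key (fun w => Function.update w j (!w j)) (by
      intro w w' e
      have e2 : Function.update (Function.update w j (!w j)) j
          (!(Function.update w j (!w j)) j) = Function.update (Function.update w' j (!w' j)) j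
          (!(Function.update w' j (!w' j)) j) := by
        simp only at e
        rw [e]
      simpa using e2)
    have hd : re g'.1 - re g.1 ∈ Q := by
      have := Q.sub_mem g'.2 g.2
      simpa using this
    have hz : ∀ x, ∃ z : ℤ, (re g'.1 - re g.1) x = z := by
      intro x
      rcases re_int g.1 x with h1 | h1 <;> rcases re_int g'.1 x with h2 | h2
      · exact ⟨0, by simp [h1, h2]⟩
      · exact ⟨1, by simp [h1, h2]⟩
      · exact ⟨-1, by simp [h1, h2]⟩
      · exact ⟨0, by simp [h1, h2]⟩
    have hev : ∀ i, i ≠ j → g'.1 (a i) = g.1 (a i) := by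
      intro i hij
      have := congrFun e i
      simp only [v] at this
      rwa [Function.update_of_ne hij] at this
    have hej : g'.1 (a j) = !g.1 (a j) := by
      have := congrFun e j
      simp only [v] at this
      rwa [Function.update_self] at this
    cases hg : g.1 (a j) with
    | false =>
      refine ⟨_, hd, fun i => ?_, hz⟩
      by_cases hij : i = j
      · subst hij
        simp [re, hej, hg]
      · simp [re, hev i hij, hij]
    | true =>
      refine ⟨-(re g'.1 - re g.1), Q.neg_mem hd, fun i => ?_, fun x => ?_⟩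
      · by_cases hij : i = j
        · subst hij
          simp [re, hej, hg]
        · simp [re, hev i hij, hij]
      · obtain ⟨z, hz⟩ := hz x
        exact ⟨-z, by rw [Pi.neg_apply, hz]; push_cast; rfl⟩
  choose q hqQ hqe hqz using hq
  obtain ⟨g, g', e⟩ := key (fun w j => !w j) (by
    intro w w' e
    funext j
    have := congrFun e j
    simpa using this)
  let s : X → ℝ := ∑ j, re g.1 (a j) • q j
  have hs : s ∈ Q := Q.sum_mem fun j _ => Q.smul_mem _ (hqQ j)
  have hsa : ∀ i, s (a i) = re g.1 (a i) := by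
    intro i
    simp only [s, Finset.sum_apply, Pi.smul_apply, smul_eq_mul, hqe]
    simp
  have hsz : ∀ x, ∃ z : ℤ, s x = z := by
    intro x
    have : ∀ j, ∃ z : ℤ, re g.1 (a j) * q j x = z := by
      intro j
      obtain ⟨z, hz⟩ := hqz j x
      rcases re_int g.1 (a j) with h1 | h1
      · exact ⟨0, by simp [h1]⟩
      · exact ⟨z, by rw [h1, hz, one_mul]⟩
    choose z hz using this
    refine ⟨∑ j, z j, ?_⟩
    simp only [s, Finset.sum_apply, Pi.smul_apply, smul_eq_mul, hz]
    push_cast
    rfl
  have hzero : re g.1 + re g'.1 - 1 - (2 : ℝ) • (re g.1 - s) = 0 := by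
    refine ha _ ?_ fun j => ?_
    · have h3 : re g.1 + re g'.1 - 1 - (2 : ℝ) • (re g.1 - s) =
          (re g'.1 - h) - (re g.1 - h) - 1 + (2 : ℝ) • s := by
        module
      rw [h3]
      exact Q.add_mem (Q.sub_mem (Q.sub_mem g'.2 g.2) h1) (Q.smul_mem _ hs)
    · have h4 := congrFun e j
      simp only [v] at h4
      have h5 := hsa j
      simp only [Pi.sub_apply, Pi.add_apply, Pi.one_apply, Pi.smul_apply, smul_eq_mul]
      rw [h5, sub_self, mul_zero, sub_zero, re_apply, re_apply, h4]
      cases g.1 (a j) <;> simp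
  have hes : re g.1 = s := by
    funext x
    have h6 := congrFun hzero x
    obtain ⟨z, hz⟩ := hsz x
    simp only [Pi.sub_apply, Pi.add_apply, Pi.one_apply, Pi.smul_apply, smul_eq_mul,
      Pi.zero_apply, hz] at h6
    rw [hz]
    rcases re_int g.1 x with h1 | h1 <;> rcases re_int g'.1 x with h2 | h2 <;>
      rw [h1, h2] at h6 <;> rw [h1]
    · have h7 : (2 * z - 1 : ℤ) = (0 : ℤ) := by
        have : ((2 * z - 1 : ℤ) : ℝ) = ((0 : ℤ) : ℝ) := by push_cast; linarith
        exact_mod_cast this
      omega
    · have h7 : ((2 * z : ℤ) : ℝ) = ((0 : ℤ) : ℝ) := by push_cast; linarith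
      have h8 : 2 * z = 0 := by exact_mod_cast h7
      have : z = 0 := by omega
      simp [this]
    · have h7 : ((2 * z : ℤ) : ℝ) = ((2 : ℤ) : ℝ) := by push_cast; linarith
      have h8 : 2 * z = 2 := by exact_mod_cast h7
      have : z = 1 := by omega
      simp [this]
    · have h7 : ((2 * z : ℤ) : ℝ) = ((1 : ℤ) : ℝ) := by push_cast; linarith
      have h8 : 2 * z = 1 := by exact_mod_cast h7
      omega
  apply hh
  have h9 := Q.sub_mem hs g.2
  rwa [← hes, sub_sub_cancel] at h9

end Pool.Agent.H711.KW
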