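import Pool.Agent.H711.KW.Stable3

/-!
# Pairs of sets with Boolean scalar products

`AS S` is the set of the vectors whose scalar products with all Boolean vectors in `S` are zero or
one, `TS A` the set of the Boolean vectors whose scalar products with all vectors in `A` are zero or
one.
-/

set_option autoImplicit false
set_option linter.unusedSectionVars false

namespace Pool.Agent.H711.KW

open Module

variable {ρ : ℕ}

/-- the scalar product of a real and a Boolean vector -/
noncomputable def dt (c : Fin ρ → ℝ) (t : Fin ρ → Bool) : ℝ := ∑ i, c i * re t i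

/-- the real vectors with Boolean scalar products with the members of `S` -/
def AS (S : Set (Fin ρ → Bool)) : Set (Fin ρ → ℝ) := {c | ∀ t ∈ S, dt c t = 0 ∨ dt c t = 1}

/-- the Boolean vectors with Boolean scalar products with the members of `A` -/
def TS (A : Set (Fin ρ → ℝ)) : Set (Fin ρ → Bool) := {t | ∀ c ∈ A, dt c t = 0 ∨ dt c t = 1}

theorem dt_zero (c : Fin ρ → ℝ) : dt c (fun _ => false) = 0 := by
  simp [dt, re]

theorem re_mul_self (t : Fin ρ → Bool) (i : Fin ρ) : re t i * re t i = re t i := by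
  rcases re_int t i with h | h <;> simp [h]

/-- **`ρ ^ 2` vectors suffice.** -/
theorem exists_few (S : Set (Fin ρ → Bool)) :
    ∃ s : Fin (ρ * ρ) → (Fin ρ → Bool), AS (Set.range s) = AS S := by
  classical
  let q : (Fin ρ → Bool) → (Fin ρ × Fin ρ → ℝ) := fun t p => re t p.1 * re t p.2
  obtain ⟨f, hf, hspan, -⟩ := Submodule.exists_fun_fin_finrank_span_eq ℝ (q '' S)
  have hr : finrank ℝ (Submodule.span ℝ (q '' S)) ≤ ρ * ρ := by
    have := Submodule.finrank_le (Submodule.span ℝ (q '' S))
    rwa [Module.finrank_pi, Fintype.card_prod, Fintype.card_fin] at this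
  choose s0 hs0 hs0q using hf
  refine ⟨fun j => if h : j.1 < finrank ℝ (Submodule.span ℝ (q '' S)) then s0 ⟨j.1, h⟩
    else fun _ => false, ?_⟩
  ext c
  let φ : (Fin ρ × Fin ρ → ℝ) →ₗ[ℝ] ℝ :=
    { toFun := fun w => ∑ i, ∑ j, c i * c j * w (i, j) - ∑ i, c i * w (i, i)
      map_add' := fun u w => by
        simp only [Pi.add_apply, mul_add, Finset.sum_add_distrib]
        ring
      map_smul' := fun a w => by
        simp only [Pi.smul_apply, smul_eq_mul, RingHom.id_apply, mul_sub, Finset.mul_sum]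
        congr 1
        · refine Finset.sum_congr rfl fun i _ => Finset.sum_congr rfl fun j _ => ?_
          ring
        · refine Finset.sum_congr rfl fun i _ => ?_
          ring }
  have hφ : ∀ t, φ (q t) = dt c t * dt c t - dt c t := by
    intro t
    show ∑ i, ∑ j, c i * c j * (re t i * re t j) - ∑ i, c i * (re t i * re t i) = _
    unfold dt
    rw [Finset.sum_mul_sum]
    congr 1
    · refine Finset.sum_congr rfl fun i _ => Finset.sum_congr rfl fun j _ => ?_
      ring
    · refine Finset.sum_congr rfl fun i _ => ?_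
      rw [re_mul_self]
  have hφ0 : ∀ t, (dt c t = 0 ∨ dt c t = 1) ↔ φ (q t) = 0 := by
    intro t
    rw [hφ]
    have e : dt c t * dt c t - dt c t = dt c t * (dt c t - 1) := by ring
    rw [e, mul_eq_zero, sub_eq_zero]
  constructor
  · intro hc t ht
    rw [hφ0]
    have h1 : Submodule.span ℝ (Set.range f) ≤ LinearMap.ker φ := by
      rw [Submodule.span_le]
      rintro _ ⟨i, rfl⟩
      have h2 := hc (s0 i) ⟨⟨i.1, i.2.trans_le hr⟩, by simp⟩
      rw [hφ0, hs0q] at h2
      exact h2
    rw [hspan] at h1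
    exact h1 (Submodule.subset_span ⟨t, ht, rfl⟩)
  · rintro hc _ ⟨j, rfl⟩
    simp only
    split_ifs with h
    · exact hc _ (hs0 _)
    · left
      exact dt_zero c

/-- the affine functions on a set of Boolean vectors -/
noncomputable def aff (T : Set (Fin ρ → Bool)) : ((Fin ρ → ℝ) × ℝ) →ₗ[ℝ] (T → ℝ) where
  toFun p t := dt p.1 t.1 + p.2
  map_add' p q := by
    funext t
    simp only [dt, Prod.fst_add, Prod.snd_add, Pi.add_apply, add_mul, Finset.sum_add_distrib]
    ring
  map_smul' a p := by
    funext t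
    simp only [dt, Prod.smul_fst, Prod.smul_snd, Pi.smul_apply, smul_eq_mul, RingHom.id_apply,
      mul_add, Finset.mul_sum]
    congr 1
    refine Finset.sum_congr rfl fun i _ => ?_
    ring

theorem finrank_aff (T : Set (Fin ρ → Bool)) :
    finrank ℝ (LinearMap.range (aff T)) ≤ ρ + 1 := by
  refine (LinearMap.finrank_range_le _).trans ?_
  rw [Module.finrank_prod, Module.finrank_pi, Fintype.card_fin, finrank_self]

theorem coord_mem (T : Set (Fin ρ → Bool)) (i : Fin ρ) :
    re (fun t : T => t.1 i) ∈ LinearMap.range (aff T) := by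
  classical
  refine ⟨(Pi.single i 1, 0), ?_⟩
  funext t
  show dt (Pi.single i 1) t.1 + 0 = re (fun t : T => t.1 i) t
  unfold dt
  rw [add_zero, Finset.sum_eq_single i]
  · rw [Pi.single_eq_same, one_mul]
    rfl
  · intro j _ hj
    rw [Pi.single_eq_of_ne hj, zero_mul]
  · intro h
    exact absurd (Finset.mem_univ i) h

theorem good_aff (T : Set (Fin ρ → Bool)) : Good (LinearMap.range (aff T)) := by
  have hone : (1 : T → ℝ) ∈ LinearMap.range (aff T) := by
    refine ⟨(0, 1), ?_⟩
    funext t
    show dt 0 t.1 + 1 = 1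
    simp [dt]
  refine ⟨hone, ?_, ?_⟩
  · rintro _ ⟨⟨c, d⟩, rfl⟩
    have e : aff T (c, d) = ∑ i, c i • re (fun t : T => t.1 i) + d • re (fun _ : T => true) := by
      funext t
      show dt c t.1 + d = _
      rw [Pi.add_apply, Finset.sum_apply, re_true]
      simp only [Pi.smul_apply, smul_eq_mul, Pi.one_apply, mul_one]
      rfl
    rw [e]
    refine Submodule.add_mem _ (Submodule.sum_mem _ fun i _ => Submodule.smul_mem _ _
      (Submodule.subset_span ⟨_, coord_mem T i, rfl⟩)) (Submodule.smul_mem _ _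
      (Submodule.subset_span ⟨fun _ => true, ?_, rfl⟩))
    rw [re_true]
    exact hone
  · intro x y h
    exact Subtype.ext (funext fun i => h _ (coord_mem T i))

/-- **The product of the sizes.** If `S` spans the space, and `AS S` and `TS (AS S)` are larger than
`ρ + 1`, then the product of their sizes is at most `(ρ + 7 / 8) * 2 ^ ρ`. -/
theorem closed_pair (S : Set (Fin ρ → Bool))
    (hS : ∀ c : Fin ρ → ℝ, (∀ t ∈ S, dt c t = 0) → c = 0)
    (hT : ρ + 1 < Nat.card (TS (AS S)))
    (hA : ∀ (_ : Finite (AS S)), ρ + 1 < Nat.card (AS S)) :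
    Finite (AS S) ∧
      8 * (Nat.card (TS (AS S)) * Nat.card (AS S)) ≤ (8 * ρ + 7) * 2 ^ ρ := by
  classical
  let A := AS S
  let T := TS A
  let L := LinearMap.range (aff T)
  have hST : ∀ t ∈ S, t ∈ T := fun t ht c hc => hc t ht
  have h0T : (fun _ => false) ∈ T := fun c _ => Or.inl (dt_zero c)
  have hdt : ∀ (c : A) (t : T), dt c.1 t.1 = if decide (dt c.1 t.1 = 1) then 1 else 0 := by
    intro c t
    rcases t.2 c.1 c.2 with h | h
    · simp [h]
    · simp [h]
  let g : A → T → Bool := fun c t => decide (dt c.1 t.1 = 1)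
  have hg : ∀ c : A, re (g c) = aff T (c.1, 0) := by
    intro c
    funext t
    show re (g c) t = dt c.1 t.1 + 0
    rw [add_zero, hdt c t]
    rfl
  let Φ : A × Bool → {g : T → Bool // re g ∈ L} := fun p =>
    if p.2 then ⟨fun t => !g p.1 t, by
      rw [re_not, hg]
      exact L.sub_mem (good_aff T).one ⟨_, rfl⟩⟩
    else ⟨g p.1, by
      rw [hg]
      exact ⟨_, rfl⟩⟩
  have hgz : ∀ c : A, g c ⟨fun _ => false, h0T⟩ = false := by
    intro c
    simp only [g, dt_zero]
    simp
  have hginj : Function.Injective g := by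
    intro c c' h
    refine Subtype.ext (sub_eq_zero.mp (hS _ fun t ht => ?_))
    have h1 := congrFun h ⟨t, hST t ht⟩
    have h2 := hdt c ⟨t, hST t ht⟩
    have h3 := hdt c' ⟨t, hST t ht⟩
    have h4 : decide (dt c.1 t = 1) = decide (dt c'.1 t = 1) := h1
    have h5 : dt c.1 t = dt c'.1 t := by
      show dt c.1 (⟨t, hST t ht⟩ : T).1 = dt c'.1 (⟨t, hST t ht⟩ : T).1
      rw [h2, h3]
      show (if decide (dt c.1 t = 1) = true then (1 : ℝ) else 0) =
        if decide (dt c'.1 t = 1) = true then 1 else 0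
      rw [h4]
    have h6 : dt (c.1 - c'.1) t = dt c.1 t - dt c'.1 t := by
      unfold dt
      rw [← Finset.sum_sub_distrib]
      refine Finset.sum_congr rfl fun i _ => ?_
      rw [Pi.sub_apply]
      ring
    rw [h6, h5, sub_self]
  have hΦ : Function.Injective Φ := by
    rintro ⟨c, b⟩ ⟨c', b'⟩ h
    have h1 : ∀ t, (Φ (c, b)).1 t = (Φ (c', b')).1 t := fun t => by rw [h]
    cases b <;> cases b' <;> simp only [Φ, Bool.false_eq_true, if_false, if_true] at h1
    · exact Prod.ext (hginj (funext h1)) rfl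
    · have := h1 ⟨fun _ => false, h0T⟩
      rw [hgz, hgz] at this
      simp at this
    · have := h1 ⟨fun _ => false, h0T⟩
      rw [hgz, hgz] at this
      simp at this
    · refine Prod.ext (hginj (funext fun t => ?_)) rfl
      have := h1 t
      simpa using this
  have hfin : Finite A := by
    have h1 : Finite (A × Bool) := Finite.of_injective Φ hΦ
    exact Finite.of_injective (fun a : A => (a, true)) fun a b h => congrArg Prod.fst h
  refine ⟨hfin, ?_⟩
  have h1 : Nat.card A * 2 ≤ nb L := by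
    have h2 := Nat.card_le_card_of_injective Φ hΦ
    have h3 : Nat.card Bool = 2 := by simp
    rwa [Nat.card_prod, h3] at h2
  have h2 : finrank ℝ L ≤ ρ + 1 := finrank_aff T
  have h3 : ρ + 1 < Nat.card A := hA hfin
  have h4 : ρ + 1 < Nat.card T := hT
  have h5 := stable L (good_aff T) (by omega) (by omega)
  have h6 : 1 ≤ finrank ℝ L := by
    have : Nonempty T := ⟨⟨_, h0T⟩⟩
    exact (good_aff T).one_le
  have h7 : 8 * (Nat.card T * nb L) ≤ (8 * ρ + 7) * 2 ^ (ρ + 1) := by
    obtain ⟨D, hD⟩ : ∃ D, finrank ℝ L = D + 1 := ⟨finrank ℝ L - 1, by omega⟩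
    rw [hD] at h5 h2
    have h8 : 8 * (Nat.card T * nb L) + 2 ^ (D + 1) ≤ (8 * D + 7) * 2 ^ (D + 1) + 2 ^ (D + 1) := by
      calc _ ≤ _ := h5
        _ = _ := by ring
    have h9 : (8 * D + 7) * 2 ^ (D + 1) ≤ (8 * ρ + 7) * 2 ^ (ρ + 1) :=
      Nat.mul_le_mul (by omega) (Nat.pow_le_pow_right two_pos h2)
    omega
  have h8 : 8 * (Nat.card T * (Nat.card A * 2)) ≤ (8 * ρ + 7) * 2 ^ (ρ + 1) :=
    (Nat.mul_le_mul_left 8 (Nat.mul_le_mul_left _ h1)).trans h7
  have h9 : 2 * (8 * (Nat.card T * Nat.card A)) ≤ 2 * ((8 * ρ + 7) * 2 ^ ρ) := by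
    calc _ = 8 * (Nat.card T * (Nat.card A * 2)) := by ring
      _ ≤ _ := h8
      _ = _ := by rw [pow_succ]; ring
  exact Nat.le_of_mul_le_mul_left h9 two_pos

end Pool.Agent.H711.KW
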