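import Pool.Agent.H711.KW.Upper

/-!
# The number of Boolean matrices of given rank
-/

set_option autoImplicit false
set_option linter.unusedSectionVars false

namespace Pool.Agent.H711.KW

open Module

/-- the linearly independent tuples of Boolean vectors -/
abbrev LI (n r : ℕ) : Type :=
  {v : Fin r → (Fin n → Bool) // LinearIndependent ℝ fun i => re (v i)}

theorem li_succ (n r : ℕ) : Nat.card (LI n r) * (2 ^ n - 2 ^ r) ≤ Nat.card (LI n (r + 1)) := by
  classical
  let W : LI n r → Type := fun v =>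
    {w : Fin n → Bool // re w ∉ Submodule.span ℝ (Set.range fun i => re (v.1 i))}
  have hW : ∀ v, 2 ^ n - 2 ^ r ≤ Nat.card (W v) := by
    intro v
    have h1 : Nat.card {w : Fin n → Bool //
        re w ∈ Submodule.span ℝ (Set.range fun i => re (v.1 i))} ≤ 2 ^ r := by
      have h2 := nb_le (Submodule.span ℝ (Set.range fun i => re (v.1 i)))
      rwa [finrank_span_eq_card v.2, Fintype.card_fin] at h2
    have h2 : Nat.card {w : Fin n → Bool //
        re w ∈ Submodule.span ℝ (Set.range fun i => re (v.1 i))} + Nat.card (W v) = 2 ^ n := by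
      rw [← card_bool, ← Nat.card_congr (Equiv.sumCompl fun w : Fin n → Bool =>
        re w ∈ Submodule.span ℝ (Set.range fun i => re (v.1 i))), Nat.card_sum]
    omega
  have hcons : ∀ (v : LI n r) (w : W v),
      LinearIndependent ℝ fun i => re ((Fin.cons w.1 v.1 : Fin (r + 1) → (Fin n → Bool)) i) := by
    intro v w
    have e : (fun i => re ((Fin.cons w.1 v.1 : Fin (r + 1) → (Fin n → Bool)) i)) =
        Fin.cons (re w.1) (fun i => re (v.1 i)) := by
      funext i
      refine Fin.cases ?_ (fun j => ?_) i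
      · rfl
      · rfl
    rw [e, linearIndependent_finCons]
    exact ⟨v.2, w.2⟩
  have hcard : Nat.card ((v : LI n r) × W v) ≤ Nat.card (LI n (r + 1)) := by
    refine Nat.card_le_card_of_injective
      (fun p => (⟨Fin.cons p.2.1 p.1.1, hcons p.1 p.2⟩ : LI n (r + 1))) ?_
    rintro ⟨v, w⟩ ⟨v', w'⟩ h
    have h1 : (Fin.cons w.1 v.1 : Fin (r + 1) → (Fin n → Bool)) = Fin.cons w'.1 v'.1 :=
      congrArg Subtype.val h
    obtain ⟨h2, h3⟩ := Fin.cons_injective2 h1
    have h4 : v = v' := Subtype.ext h3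
    subst h4
    have h5 : w = w' := Subtype.ext h2
    rw [h5]
  refine le_trans ?_ hcard
  rw [Nat.card_sigma, Nat.card_eq_fintype_card, ← Finset.card_univ, ← smul_eq_mul,
    ← Finset.sum_const]
  exact Finset.sum_le_sum fun v _ => hW v

theorem li_lower (n r : ℕ) : ∀ i, i ≤ r → (2 ^ n - 2 ^ r) ^ i ≤ Nat.card (LI n i)
  | 0, _ => by
    have : Nonempty (LI n 0) := ⟨⟨Fin.elim0, linearIndependent_empty_type⟩⟩
    have h := Nat.card_pos (α := LI n 0)
    rw [pow_zero]
    exact h
  | i + 1, h => by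
    have h1 := li_lower n r i (by omega)
    have h2 : 2 ^ n - 2 ^ r ≤ 2 ^ n - 2 ^ i :=
      Nat.sub_le_sub_left (Nat.pow_le_pow_right two_pos (by omega)) _
    rw [pow_succ]
    exact (Nat.mul_le_mul h1 h2).trans (li_succ n i)

theorem half (n r : ℕ) (h : 2 * r + 1 ≤ n) : 2 ^ (r * n) ≤ 2 * (2 ^ n - 2 ^ r) ^ r := by
  have h1 : r * 2 ^ (r + 1) ≤ 2 ^ n := by
    calc r * 2 ^ (r + 1) ≤ 2 ^ r * 2 ^ (r + 1) := Nat.mul_le_mul_right _ Nat.lt_two_pow_self.le
      _ = 2 ^ (2 * r + 1) := by rw [← pow_add]; congr 1; ring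
      _ ≤ 2 ^ n := Nat.pow_le_pow_right two_pos h
  have h2 : 2 ^ r ≤ 2 ^ n := Nat.pow_le_pow_right two_pos (by omega)
  have h3 : ((2 ^ n - 2 ^ r : ℕ) : ℝ) = 2 ^ n * (1 + -(2 ^ r / 2 ^ n)) := by
    rw [Nat.cast_sub h2]
    push_cast
    field_simp
    ring
  have hx0 : (0 : ℝ) ≤ 2 ^ r / 2 ^ n := by positivity
  have hx1 : (2 : ℝ) ^ r / 2 ^ n ≤ 1 := by
    rw [div_le_one (by positivity)]
    exact_mod_cast h2
  have h4 := one_add_mul_le_pow (a := -((2 : ℝ) ^ r / 2 ^ n)) (by linarith) r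
  have h5 : (r : ℝ) * (2 ^ r / 2 ^ n) ≤ 1 / 2 := by
    rw [mul_div_assoc', div_le_iff₀ (by positivity)]
    have : (r : ℝ) * 2 ^ (r + 1) ≤ 2 ^ n := by exact_mod_cast h1
    rw [pow_succ] at this
    linarith
  have h6 : (2 : ℝ) ^ (r * n) ≤ 2 * ((2 ^ n - 2 ^ r : ℕ) : ℝ) ^ r := by
    rw [h3, mul_pow, ← pow_mul, mul_comm n r]
    have h7 : (0 : ℝ) < 2 ^ (r * n) := by positivity
    nlinarith
  exact_mod_cast h6

/-- **The lower bound.** -/
theorem lower (n r d : ℕ) : Nat.card (LI n r) * (r + 1) ^ d ≤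
    Nat.card {F : Fin (r + d) → Fin n → Bool // rk F = r} := by
  classical
  let row : LI n r → Option (Fin r) → (Fin n → Bool) := fun v o =>
    match o with
    | none => fun _ => false
    | some i => v.1 i
  let Φ : LI n r × (Fin d → Option (Fin r)) → (Fin (r + d) → Fin n → Bool) := fun p =>
    Fin.append p.1.1 fun j => row p.1 (p.2 j)
  have hrk : ∀ p, rk (Φ p) = r := by
    rintro ⟨v, e⟩
    rw [rk_eq]
    have h1 : Submodule.span ℝ (Set.range fun x => re (Φ (v, e) x)) =
        Submodule.span ℝ (Set.range fun i => re (v.1 i)) := by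
      apply le_antisymm
      · rw [Submodule.span_le]
        rintro _ ⟨x, rfl⟩
        refine Fin.addCases (fun i => ?_) (fun j => ?_) x
        · have e1 : Φ (v, e) (Fin.castAdd d i) = v.1 i := Fin.append_left _ _ i
          simp only [e1]
          exact Submodule.subset_span ⟨i, rfl⟩
        · have e1 : Φ (v, e) (Fin.natAdd r j) = row v (e j) := Fin.append_right _ _ j
          simp only [e1]
          cases h : e j with
          | none =>
            have e2 : re (row v none) = 0 := re_false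
            rw [e2]
            exact Submodule.zero_mem _
          | some i => exact Submodule.subset_span ⟨i, rfl⟩
      · refine Submodule.span_mono ?_
        rintro _ ⟨i, rfl⟩
        refine ⟨Fin.castAdd d i, ?_⟩
        have e1 : Φ (v, e) (Fin.castAdd d i) = v.1 i := Fin.append_left _ _ i
        simp only [e1]
    rw [h1, finrank_span_eq_card v.2, Fintype.card_fin]
  have hinj : Function.Injective Φ := by
    rintro ⟨v, e⟩ ⟨v', e'⟩ h
    have h1 : v = v' := by
      refine Subtype.ext (funext fun i => ?_)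
      have h2 := congrFun h (Fin.castAdd d i)
      have e1 : Φ (v, e) (Fin.castAdd d i) = v.1 i := Fin.append_left _ _ i
      have e2 : Φ (v', e') (Fin.castAdd d i) = v'.1 i := Fin.append_left _ _ i
      rwa [e1, e2] at h2
    subst h1
    have h3 : e = e' := by
      funext j
      have h2 := congrFun h (Fin.natAdd r j)
      have e1 : Φ (v, e) (Fin.natAdd r j) = row v (e j) := Fin.append_right _ _ j
      have e2 : Φ (v, e') (Fin.natAdd r j) = row v (e' j) := Fin.append_right _ _ j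
      rw [e1, e2] at h2
      have hne : ∀ i, v.1 i ≠ fun _ => false := by
        intro i hi
        have := v.2.ne_zero i
        rw [hi] at this
        exact this re_false
      cases h4 : e j with
      | none =>
        cases h5 : e' j with
        | none => rfl
        | some i' =>
          rw [h4, h5] at h2
          exact absurd h2.symm (hne i')
      | some i =>
        cases h5 : e' j with
        | none =>
          rw [h4, h5] at h2
          exact absurd h2 (hne i)
        | some i' =>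
          rw [h4, h5] at h2
          have h6 : re (v.1 i) = re (v.1 i') := congrArg re h2
          rw [v.2.injective h6]
    rw [h3]
  have h := Nat.card_le_card_of_injective
    (fun p => (⟨Φ p, hrk p⟩ : {F : Fin (r + d) → Fin n → Bool // rk F = r}))
    fun p q h => hinj (congrArg Subtype.val h)
  rw [Nat.card_prod, Nat.card_fun, Nat.card_fin] at h
  have h1 : Nat.card (Option (Fin r)) = r + 1 := by
    rw [Nat.card_eq_fintype_card, Fintype.card_option, Fintype.card_fin]
  rwa [h1] at h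

theorem bern (K q s : ℕ) (hK : 0 < K) : 2 ^ q * K ^ (K * q + s) ≤ (K + 1) ^ (K * q + s) := by
  have h1 : 2 * K ^ K ≤ (K + 1) ^ K := by
    have hK0 : (0 : ℝ) < K := by exact_mod_cast hK
    have h2 := one_add_mul_le_pow (a := (1 : ℝ) / K) (by
      have : (0 : ℝ) ≤ 1 / K := by positivity
      linarith) K
    have h3 : (1 : ℝ) + K * (1 / K) = 2 := by
      field_simp
      norm_num
    have h4 : ((K : ℝ) + 1) ^ K = K ^ K * (1 + 1 / K) ^ K := by
      rw [← mul_pow]
      congr 1
      field_simp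
    have h5 : (2 : ℝ) * K ^ K ≤ (K + 1) ^ K := by
      rw [h4]
      rw [h3] at h2
      have : (0 : ℝ) ≤ (K : ℝ) ^ K := by positivity
      nlinarith
    exact_mod_cast h5
  calc 2 ^ q * K ^ (K * q + s) = (2 * K ^ K) ^ q * K ^ s := by
        rw [pow_add, pow_mul, mul_pow]
        ring
    _ ≤ ((K + 1) ^ K) ^ q * (K + 1) ^ s :=
        Nat.mul_le_mul (Nat.pow_le_pow_left h1 q) (Nat.pow_le_pow_left (Nat.le_succ K) s)
    _ = _ := by rw [pow_add, pow_mul]

/-- the final estimate -/
theorem key (r m : ℕ) (hr : 1 ≤ r) (hm : 256 * r ^ 4 ≤ m) :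
    2 ^ (r * (r * r) + m / (16 * (r + 1)) + 1) * (r + 1) ^ r * (8 * r + 7) ^ m ≤
      (8 * r + 8) ^ m := by
  set E := m / (16 * (r + 1)) with hE
  have hE1 : E * (16 * (r + 1)) ≤ m := Nat.div_mul_le_self _ _
  have hq : r * (r * r) + E + 1 + r * r ≤ m / (8 * r + 7) := by
    rw [Nat.le_div_iff_mul_le (by omega)]
    have h1 : r * (r * r) + 1 + r * r ≤ 8 * (r * (r * r)) := by
      have h2 : 1 ≤ r * r := Nat.mul_pos hr hr
      have h3 : r * r ≤ r * (r * r) := Nat.le_mul_of_pos_left _ hr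
      omega
    have h2 : (r * (r * r) + 1 + r * r) * (16 * (r + 1)) ≤ m := by
      calc (r * (r * r) + 1 + r * r) * (16 * (r + 1)) ≤ 8 * (r * (r * r)) * (16 * (r + r)) :=
            Nat.mul_le_mul h1 (by omega)
        _ = 256 * r ^ 4 := by ring
        _ ≤ m := hm
    have h3 : 2 * ((r * (r * r) + E + 1 + r * r) * (8 * r + 7)) ≤ 2 * m := by
      calc 2 * ((r * (r * r) + E + 1 + r * r) * (8 * r + 7))
          ≤ 2 * ((r * (r * r) + E + 1 + r * r) * (8 * r + 8)) := by
            gcongr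
            omega
        _ = (r * (r * r) + 1 + r * r) * (16 * (r + 1)) + E * (16 * (r + 1)) := by ring
        _ ≤ m + m := Nat.add_le_add h2 hE1
        _ = 2 * m := by ring
    exact Nat.le_of_mul_le_mul_left h3 two_pos
  have h1 : (r + 1) ^ r ≤ 2 ^ (r * r) := by
    rw [pow_mul]
    exact Nat.pow_le_pow_left (Nat.succ_le_of_lt Nat.lt_two_pow_self) r
  have h2 := bern (8 * r + 7) (m / (8 * r + 7)) (m % (8 * r + 7)) (by omega)
  rw [Nat.div_add_mod] at h2
  calc 2 ^ (r * (r * r) + E + 1) * (r + 1) ^ r * (8 * r + 7) ^ m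
      ≤ 2 ^ (r * (r * r) + E + 1) * 2 ^ (r * r) * (8 * r + 7) ^ m := by gcongr
    _ = 2 ^ (r * (r * r) + E + 1 + r * r) * (8 * r + 7) ^ m := by rw [← pow_add]
    _ ≤ 2 ^ (m / (8 * r + 7)) * (8 * r + 7) ^ m :=
        Nat.mul_le_mul_right _ (Nat.pow_le_pow_right two_pos hq)
    _ ≤ _ := h2

/-- **Few matrices of rank `r` have more than `r + 1` rows and columns**, if `m ≤ n`. -/
theorem main_le (m n r : ℕ) (hr : 1 ≤ r) (hmn : m ≤ n) (hm : 256 * r ^ 4 ≤ m) :
    Nat.card {F : Fin m → Fin n → Bool // rk F = r ∧ r + 1 < nrows F ∧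
      r + 1 < nrows fun y x => F x y} * 2 ^ (m / (16 * (r + 1))) ≤
      Nat.card {F : Fin m → Fin n → Bool // rk F = r} := by
  have hU := upper (m := m) (n := n) r hmn
  have hK := key r m hr hm
  have hr4 : r ≤ r ^ 4 := Nat.le_self_pow (by norm_num) r
  obtain ⟨d, rfl⟩ : ∃ d, m = r + d := ⟨m - r, by omega⟩
  have hL := lower n r d
  have hL1 := li_lower n r r le_rfl
  have hL2 := half n r (by omega)
  set B := Nat.card {F : Fin (r + d) → Fin n → Bool // rk F = r ∧ r + 1 < nrows F ∧
      r + 1 < nrows fun y x => F x y} with hB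
  set T := Nat.card {F : Fin (r + d) → Fin n → Bool // rk F = r} with hT
  set E := (r + d) / (16 * (r + 1)) with hE
  have h1 : 2 ^ (r * n) * (r + 1) ^ d ≤ 2 * T := by
    calc 2 ^ (r * n) * (r + 1) ^ d ≤ 2 * (2 ^ n - 2 ^ r) ^ r * (r + 1) ^ d :=
          Nat.mul_le_mul_right _ hL2
      _ ≤ 2 * Nat.card (LI n r) * (r + 1) ^ d := by gcongr
      _ = 2 * (Nat.card (LI n r) * (r + 1) ^ d) := by ring
      _ ≤ 2 * T := Nat.mul_le_mul_left 2 hL
  have h2 : (8 ^ (r + d) * 2 * (r + 1) ^ r) * (B * 2 ^ E) ≤ (8 ^ (r + d) * 2 * (r + 1) ^ r) * T := by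
    calc (8 ^ (r + d) * 2 * (r + 1) ^ r) * (B * 2 ^ E)
        = (8 ^ (r + d) * B) * (2 * (r + 1) ^ r * 2 ^ E) := by ring
      _ ≤ (2 ^ (r * (r * r)) * ((8 * r + 7) ^ (r + d) * 2 ^ (r * n))) *
            (2 * (r + 1) ^ r * 2 ^ E) := Nat.mul_le_mul_right _ hU
      _ = (2 ^ (r * (r * r) + E + 1) * (r + 1) ^ r * (8 * r + 7) ^ (r + d)) * 2 ^ (r * n) := by
          rw [pow_add, pow_add, pow_one]
          ring
      _ ≤ (8 * r + 8) ^ (r + d) * 2 ^ (r * n) := Nat.mul_le_mul_right _ hK
      _ = 8 ^ (r + d) * (r + 1) ^ r * (2 ^ (r * n) * (r + 1) ^ d) := by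
          rw [show 8 * r + 8 = 8 * (r + 1) by ring, mul_pow, pow_add (r + 1)]
          ring
      _ ≤ 8 ^ (r + d) * (r + 1) ^ r * (2 * T) := Nat.mul_le_mul_left _ h1
      _ = _ := by ring
  exact Nat.le_of_mul_le_mul_left h2 (by positivity)

theorem rk_flip {m n : ℕ} (F : Fin m → Fin n → Bool) : rk (fun y x => F x y) = rk F := by
  unfold rk
  rw [← Matrix.rank_transpose]
  rfl

/-- **Few matrices of rank `r` have more than `r + 1` rows and columns.** -/
theorem main (m n r : ℕ) (hr : 1 ≤ r) (hm : 256 * r ^ 4 ≤ min m n) :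
    Nat.card {F : Fin m → Fin n → Bool // rk F = r ∧ r + 1 < nrows F ∧
      r + 1 < nrows fun y x => F x y} * 2 ^ (min m n / (16 * (r + 1))) ≤
      Nat.card {F : Fin m → Fin n → Bool // rk F = r} := by
  rcases le_total m n with h | h
  · rw [min_eq_left h] at hm ⊢
    exact main_le m n r hr h hm
  · rw [min_eq_right h] at hm ⊢
    have h1 := main_le n m r hr h hm
    have e1 : Nat.card {F : Fin m → Fin n → Bool // rk F = r} =
        Nat.card {F : Fin n → Fin m → Bool // rk F = r} :=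
      Nat.card_congr ⟨fun F => ⟨fun y x => F.1 x y, by rw [rk_flip]; exact F.2⟩,
        fun F => ⟨fun x y => F.1 y x, by rw [rk_flip]; exact F.2⟩, fun _ => rfl, fun _ => rfl⟩
    have e2 : Nat.card {F : Fin m → Fin n → Bool // rk F = r ∧ r + 1 < nrows F ∧
        r + 1 < nrows fun y x => F x y} = Nat.card {F : Fin n → Fin m → Bool // rk F = r ∧
        r + 1 < nrows F ∧ r + 1 < nrows fun y x => F x y} :=
      Nat.card_congr ⟨fun F => ⟨fun y x => F.1 x y, by rw [rk_flip]; exact F.2.1, F.2.2.2, F.2.2.1⟩,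
        fun F => ⟨fun x y => F.1 y x, by rw [rk_flip]; exact F.2.1, F.2.2.2, F.2.2.1⟩,
        fun _ => rfl, fun _ => rfl⟩
    rw [e1, e2]
    exact h1

end Pool.Agent.H711.KW
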