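import Pool.Agent.H711.KW.Split

/-!
# The inequality of Kupavskii and Weltge

`kw`: for a good space `L` of dimension `D` on a finite set `X`, the number of the points times the
number of the Boolean members is at most `D * 2 ^ D`.
-/

set_option autoImplicit false
set_option linter.unusedSectionVars false

namespace Pool.Agent.H711.KW

open Module

variable {X : Type}

theorem Good.map {Y : Type} {L : Submodule ℝ (X → ℝ)} (hL : Good L) (φ : Y → X)
    (hφ : Function.Injective φ) : Good (L.map (pull φ)) := by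
  refine ⟨⟨1, hL.one, rfl⟩, ?_, fun x y h => hφ (hL.sep _ _ fun g hg => ?_)⟩
  · refine (Submodule.map_mono hL.span).trans ?_
    rw [Submodule.map_span]
    refine Submodule.span_mono ?_
    rintro _ ⟨_, ⟨g, hg, rfl⟩, rfl⟩
    exact ⟨g ∘ φ, ⟨re g, hg, rfl⟩, rfl⟩
  · exact h (g ∘ φ) ⟨re g, hg, rfl⟩

theorem pull_inj {P : Type} (π : X → P) (hπ : Function.Surjective π) (u : P → ℝ)
    (h : pull π u = 0) : u = 0 := by
  funext p
  obtain ⟨x, rfl⟩ := hπ p
  exact congrFun h x

/-- **Reduction to a good space.** -/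
theorem reduce (Q : Submodule ℝ (X → ℝ)) (h1 : (1 : X → ℝ) ∈ Q) :
    ∃ (P : Type) (π : X → P) (LP : Submodule ℝ (P → ℝ)), Function.Surjective π ∧ Good LP ∧
      LP.map (pull π) ≤ Q ∧ nb LP = nb Q := by
  let s : Setoid X := ⟨fun x y => ∀ g : X → Bool, re g ∈ Q → g x = g y,
    fun x g _ => rfl, fun h g hg => (h g hg).symm, fun h h' g hg => (h g hg).trans (h' g hg)⟩
  let B : Set (X → ℝ) := {f | ∃ g : X → Bool, re g ∈ Q ∧ re g = f}
  let π : X → Quotient s := Quotient.mk s
  have hπ : Function.Surjective π := Quotient.exists_rep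
  have fac : ∀ g : X → Bool, re g ∈ Q → ∃ g' : Quotient s → Bool, g = g' ∘ π :=
    fun g hg => ⟨Quotient.lift g (fun x y h => h g hg), rfl⟩
  let LP : Submodule ℝ (Quotient s → ℝ) := (Submodule.span ℝ B).comap (pull π)
  have hBQ : Submodule.span ℝ B ≤ Q := Submodule.span_le.mpr (by rintro _ ⟨g, hg, rfl⟩; exact hg)
  have hle : LP.map (pull π) ≤ Q := (Submodule.map_comap_le _ _).trans hBQ
  have mem : ∀ g' : Quotient s → Bool, re (g' ∘ π) ∈ Q → re g' ∈ LP := fun g' h =>
    Submodule.mem_comap.mpr (Submodule.subset_span ⟨g' ∘ π, h, rfl⟩)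
  refine ⟨Quotient s, π, LP, hπ, ⟨?_, ?_, ?_⟩, hle, ?_⟩
  · have h2 : re (fun _ : X => true) ∈ Q := by rw [re_true]; exact h1
    have h3 := mem (fun _ => true) h2
    rwa [re_true] at h3
  · intro u hu
    have h2 : Submodule.span ℝ B ≤
        (Submodule.span ℝ {f | ∃ g' : Quotient s → Bool, re g' ∈ LP ∧ re g' = f}).map
          (pull π) := by
      rw [Submodule.map_span]
      refine Submodule.span_mono ?_
      rintro _ ⟨g, hg, rfl⟩
      obtain ⟨g', rfl⟩ := fac g hg
      exact ⟨re g', ⟨g', mem g' hg, rfl⟩, rfl⟩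
    obtain ⟨v, hv, e⟩ := h2 hu
    have h3 : u = v := by
      rw [← sub_eq_zero]
      refine pull_inj π hπ _ ?_
      rw [map_sub, e, sub_self]
    rw [h3]
    exact hv
  · rintro ⟨x⟩ ⟨y⟩ h
    refine Quotient.sound fun g hg => ?_
    obtain ⟨g', rfl⟩ := fac g hg
    exact h g' (mem g' hg)
  · unfold nb
    refine Nat.card_congr ⟨fun g => ⟨g.1 ∘ π, hle ⟨re g.1, g.2, rfl⟩⟩,
      fun g => ⟨Quotient.lift g.1 (fun x y h => h g.1 g.2), mem _ g.2⟩, fun g => ?_, fun g => ?_⟩
    · refine Subtype.ext (funext fun p => ?_)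
      obtain ⟨x, rfl⟩ := hπ p
      rfl
    · rfl

theorem finrank_le_of_map {P : Type} [Finite X] [Finite P] (π : X → P)
    (hπ : Function.Surjective π) (LP : Submodule ℝ (P → ℝ)) (Q : Submodule ℝ (X → ℝ))
    (h : LP.map (pull π) ≤ Q) : finrank ℝ LP ≤ finrank ℝ Q := by
  rw [← finrank_map_inj (pull π) LP fun v _ hv => pull_inj π hπ v hv]
  exact Submodule.finrank_mono h

theorem card_Sb [Finite X] (f : X → Bool) (b : Bool) :
    Nat.card (Sb f b) + Nat.card (Sb f (!b)) = Nat.card X := by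
  classical
  cases nonempty_fintype X
  rw [← Nat.card_congr (Equiv.sumCompl (fun x => f x = b)), Nat.card_sum]
  congr 1
  refine Nat.card_congr (Equiv.subtypeEquivRight fun x => ?_)
  cases b <;> cases f x <;> simp

theorem Good.exists_split {L : Submodule ℝ (X → ℝ)} (hL : Good L) {x y : X} (h : x ≠ y) :
    ∃ f : X → Bool, re f ∈ L ∧ ∀ b, Nonempty (Sb f b) := by
  by_contra hcon
  push Not at hcon
  refine h (hL.sep x y fun g hg => ?_)
  by_contra hne
  obtain ⟨b, hb⟩ := hcon g hg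
  by_cases h1 : g x = b
  · exact hb.false ⟨x, h1⟩
  · refine hb.false ⟨y, ?_⟩
    cases hx : g x <;> cases hy : g y <;> cases b <;> simp_all

theorem one_ne_zero' [Nonempty X] : (1 : X → ℝ) ≠ 0 := by
  intro h
  have := congrFun h (Classical.arbitrary X)
  simp at this

theorem Good.one_le [Finite X] [Nonempty X] {L : Submodule ℝ (X → ℝ)} (hL : Good L) :
    1 ≤ finrank ℝ L := by
  rw [Submodule.one_le_finrank_iff]
  intro h
  have h1 := hL.one
  rw [h] at h1
  exact one_ne_zero' ((Submodule.mem_bot ℝ).mp h1)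

theorem one_le_Kr [Finite X] (L : Submodule ℝ (X → ℝ)) (h1 : (1 : X → ℝ) ∈ L) (f : X → Bool)
    (hf : re f ∈ L) (b : Bool) (hne : Nonempty (Sb f (!b))) : 1 ≤ finrank ℝ (Kr L f b) := by
  rw [Submodule.one_le_finrank_iff]
  intro h
  have h2 := ind_mem L h1 f hf (!b)
  rw [Bool.not_not, h] at h2
  obtain ⟨x, hx⟩ := hne
  have h3 := congrFun ((Submodule.mem_bot ℝ).mp h2) x
  rw [re_apply, hx] at h3
  simp at h3

theorem card_lt [Finite X] (f : X → Bool) (b : Bool) (hne : Nonempty (Sb f (!b))) :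
    Nat.card (Sb f b) < Nat.card X := by
  have h1 := card_Sb f b
  have h2 : 0 < Nat.card (Sb f (!b)) := Nat.card_pos
  omega

theorem card_one [Subsingleton X] [Nonempty X] : Nat.card X = 1 := by
  haveI : Finite X := inferInstance
  exact Nat.card_eq_one_iff_unique.mpr ⟨inferInstance, inferInstance⟩

/-- A good space of dimension `D` lives on at most `2 ^ (D - 1)` points. -/
theorem size : ∀ (n : ℕ) (X : Type) [Finite X] [Nonempty X] (L : Submodule ℝ (X → ℝ)), Good L →
    Nat.card X = n → 2 * Nat.card X ≤ 2 ^ finrank ℝ L := by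
  intro n
  induction n using Nat.strong_induction_on with
  | _ n ih =>
    intro X _ _ L hL hn
    rcases subsingleton_or_nontrivial X with h | h
    · have h1 := hL.one_le
      rw [card_one]
      calc 2 * 1 = 2 ^ 1 := rfl
        _ ≤ _ := Nat.pow_le_pow_right two_pos h1
    · obtain ⟨x, y, hxy⟩ := h.exists_pair_ne
      obtain ⟨f, hf, hne⟩ := hL.exists_split hxy
      have hc := card_Sb f true
      have key : ∀ b, 4 * Nat.card (Sb f b) ≤ 2 ^ finrank ℝ L := by
        intro b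
        haveI := hne b
        have h1 := ih (Nat.card (Sb f b)) (hn ▸ card_lt f b (hne _)) (Sb f b) (Lr L f b)
          (hL.map _ Subtype.val_injective) rfl
        have h2 := Kr_add L f b
        have h3 := one_le_Kr L hL.one f hf b (hne _)
        calc 4 * Nat.card (Sb f b) = 2 * (2 * Nat.card (Sb f b)) := by ring
          _ ≤ 2 * 2 ^ finrank ℝ (Lr L f b) := Nat.mul_le_mul_left 2 h1
          _ = 2 ^ (finrank ℝ (Lr L f b) + 1) := by rw [pow_succ]; ring
          _ ≤ 2 ^ finrank ℝ L := Nat.pow_le_pow_right two_pos (by omega)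
      have h1 := key true
      have h2 := key false
      rw [Bool.not_true] at hc
      omega

theorem card_fibres {P : Type} [Finite X] [Fintype P] (π : X → P) :
    Nat.card X = ∑ p, Nat.card {x // π x = p} := by
  rw [← Nat.card_sigma]
  exact Nat.card_congr (Equiv.sigmaFiberEquiv π).symm

/-- the functions of `L` vanishing on a fibre -/
theorem ker_fibre {P : Type} [Finite X] [Finite P] (L : Submodule ℝ (X → ℝ)) (π : X → P)
    (hπ : Function.Surjective π) (LP : Submodule ℝ (P → ℝ)) (h1 : (1 : P → ℝ) ∈ LP)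
    (hle : LP.map (pull π) ≤ L) (p : P) :
    (LP ⊓ LinearMap.ker (LinearMap.proj p : (P → ℝ) →ₗ[ℝ] ℝ) : Submodule ℝ (P → ℝ)).map
        (pull π) ≤
      L ⊓ LinearMap.ker (pull (Subtype.val : {x // π x = p} → X)) ∧
    finrank ℝ ((LP ⊓ LinearMap.ker (LinearMap.proj p : (P → ℝ) →ₗ[ℝ] ℝ) :
      Submodule ℝ (P → ℝ)).map (pull π)) + 1 = finrank ℝ LP := by
  constructor
  · rintro _ ⟨u, hu, rfl⟩
    refine ⟨hle ⟨u, hu.1, rfl⟩, LinearMap.mem_ker.mpr ?_⟩
    funext x
    have h2 : u p = 0 := hu.2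
    show u (π x.1) = 0
    rw [x.2, h2]
  · rw [finrank_map_inj (pull π) _ fun v _ hv => pull_inj π hπ v hv]
    exact finrank_vanish LP p 1 h1 one_ne_zero

/-- **Fibres.** -/
theorem fibre {P : Type} [Finite X] [Finite P] (L : Submodule ℝ (X → ℝ)) (hL : Good L) (π : X → P)
    (hπ : Function.Surjective π) (LP : Submodule ℝ (P → ℝ)) (h1 : (1 : P → ℝ) ∈ LP)
    (hle : LP.map (pull π) ≤ L) (p : P) :
    Nat.card {x // π x = p} * 2 ^ finrank ℝ LP ≤ 2 ^ finrank ℝ L := by
  haveI : Nonempty {x // π x = p} := by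
    obtain ⟨x, hx⟩ := hπ p
    exact ⟨⟨x, hx⟩⟩
  obtain ⟨h2, h3⟩ := ker_fibre L π hπ LP h1 hle p
  have h4 := rank_null (pull (Subtype.val : {x // π x = p} → X)) L
  have h5 := Submodule.finrank_mono h2
  have h6 := size _ {x // π x = p} (L.map (pull Subtype.val)) (hL.map _ Subtype.val_injective) rfl
  have h7 : 2 * (Nat.card {x // π x = p} * 2 ^ finrank ℝ LP) ≤ 2 * 2 ^ finrank ℝ L := by
    calc 2 * (Nat.card {x // π x = p} * 2 ^ finrank ℝ LP)
        = 2 * Nat.card {x // π x = p} * 2 ^ finrank ℝ LP := by ring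
      _ ≤ 2 ^ finrank ℝ (L.map (pull (Subtype.val : {x // π x = p} → X))) *
            2 ^ finrank ℝ LP := Nat.mul_le_mul_right _ h6
      _ = 2 ^ (finrank ℝ (L.map (pull (Subtype.val : {x // π x = p} → X))) +
            finrank ℝ LP) := (pow_add _ _ _).symm
      _ ≤ 2 ^ (finrank ℝ L + 1) := Nat.pow_le_pow_right two_pos (by omega)
      _ = 2 * 2 ^ finrank ℝ L := by rw [pow_succ]; ring
  omega

theorem fibres_le {P : Type} [Finite X] [Finite P] (L : Submodule ℝ (X → ℝ)) (hL : Good L)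
    (π : X → P) (hπ : Function.Surjective π) (LP : Submodule ℝ (P → ℝ)) (h1 : (1 : P → ℝ) ∈ LP)
    (hle : LP.map (pull π) ≤ L) :
    Nat.card X * 2 ^ finrank ℝ LP ≤ Nat.card P * 2 ^ finrank ℝ L := by
  cases nonempty_fintype P
  rw [card_fibres π, Finset.sum_mul]
  refine (Finset.sum_le_sum fun p _ => fibre L hL π hπ LP h1 hle p).trans ?_
  rw [Finset.sum_const, Finset.card_univ, Nat.card_eq_fintype_card, smul_eq_mul]

/-- Spaces inside a good space. -/
theorem lemB [Finite X] (IH : ∀ (P : Type) [Finite P], Nat.card P ≤ Nat.card X →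
      ∀ LP : Submodule ℝ (P → ℝ), Good LP →
        Nat.card P * nb LP ≤ finrank ℝ LP * 2 ^ finrank ℝ LP)
    (L : Submodule ℝ (X → ℝ)) (hL : Good L) (Q : Submodule ℝ (X → ℝ)) (hQ : Q ≤ L)
    (h1 : (1 : X → ℝ) ∈ Q) : Nat.card X * nb Q ≤ finrank ℝ Q * 2 ^ finrank ℝ L := by
  obtain ⟨P, π, LP, hπ, hLP, hle, hnb⟩ := reduce Q h1
  haveI : Finite P := Finite.of_surjective π hπ
  have h2 := IH P (Nat.card_le_card_of_surjective π hπ) LP hLP
  have h3 := fibres_le L hL π hπ LP hLP.one (hle.trans hQ)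
  have h4 := finrank_le_of_map π hπ LP Q hle
  rw [hnb] at h2
  have h5 : Nat.card X * nb Q * 2 ^ finrank ℝ LP ≤
      finrank ℝ Q * 2 ^ finrank ℝ L * 2 ^ finrank ℝ LP := by
    calc Nat.card X * nb Q * 2 ^ finrank ℝ LP
        = Nat.card X * 2 ^ finrank ℝ LP * nb Q := by ring
      _ ≤ Nat.card P * 2 ^ finrank ℝ L * nb Q := Nat.mul_le_mul_right _ h3
      _ = Nat.card P * nb Q * 2 ^ finrank ℝ L := by ring
      _ ≤ finrank ℝ LP * 2 ^ finrank ℝ LP * 2 ^ finrank ℝ L := Nat.mul_le_mul_right _ h2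
      _ ≤ finrank ℝ Q * 2 ^ finrank ℝ LP * 2 ^ finrank ℝ L :=
          Nat.mul_le_mul_right _ (Nat.mul_le_mul_right _ h4)
      _ = _ := by ring
  exact Nat.le_of_mul_le_mul_right h5 (Nat.pow_pos two_pos)

theorem arith1 (n N x x' k k' D Db Nb : ℕ) (A : Db + k = D)
    (B : 2 * N + x * 2 ^ k ≤ 2 * (x * x') + Nb * 2 ^ k) (C : x' ≤ 2 ^ k)
    (hD : n * Nb ≤ Db * 2 ^ Db) (hE : n * x ≤ k' * 2 ^ Db) :
    2 * (n * N) ≤ (Db + k') * 2 ^ D := by
  subst A
  have h1 : n * (2 * N + x * 2 ^ k) ≤ n * (2 * (x * x') + Nb * 2 ^ k) := Nat.mul_le_mul_left n B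
  have h2 : n * x * x' ≤ n * x * 2 ^ k := Nat.mul_le_mul_left _ C
  have h3 : n * Nb * 2 ^ k ≤ Db * 2 ^ Db * 2 ^ k := Nat.mul_le_mul_right _ hD
  have h4 : n * x * 2 ^ k ≤ k' * 2 ^ Db * 2 ^ k := Nat.mul_le_mul_right _ hE
  rw [pow_add]
  nlinarith [h1, h2, h3, h4]

/-- **The inequality of Kupavskii and Weltge.** -/
theorem kw : ∀ (n : ℕ) (X : Type) [Finite X] (L : Submodule ℝ (X → ℝ)), Good L →
    Nat.card X = n → Nat.card X * nb L ≤ finrank ℝ L * 2 ^ finrank ℝ L := by
  intro n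
  induction n using Nat.strong_induction_on with
  | _ n ih =>
    intro X _ L hL hn
    rcases isEmpty_or_nonempty X with h0 | h0
    · rw [Nat.card_of_isEmpty, zero_mul]
      exact Nat.zero_le _
    rcases subsingleton_or_nontrivial X with h | h
    · rw [card_one]
      exact Nat.mul_le_mul hL.one_le (nb_le L)
    · obtain ⟨x, y, hxy⟩ := h.exists_pair_ne
      obtain ⟨f, hf, hne⟩ := hL.exists_split hxy
      have key : ∀ b, 2 * (Nat.card (Sb f b) * nb L) ≤
          (finrank ℝ (Lr L f b) + finrank ℝ (Kr L f (!b))) * 2 ^ finrank ℝ L := by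
        intro b
        have hlt := card_lt f b (hne _)
        have hg : Good (Lr L f b) := hL.map _ Subtype.val_injective
        refine arith1 _ _ (nb (Qr L f b)) (nb (Qr L f (!b))) (finrank ℝ (Kr L f b)) _ _ _
          (nb (Lr L f b)) (Kr_add L f b) (split L hL.one f hf b) ?_ ?_ ?_
        · have h1 := nb_le (Qr L f (!b))
          rwa [finrank_Qr, Bool.not_not] at h1
        · exact ih _ (hn ▸ hlt) (Sb f b) (Lr L f b) hg rfl
        · have h1 := lemB (fun P _ hP LP hLP => ih _ (hn ▸ hP.trans_lt hlt) P LP hLP rfl)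
            (Lr L f b) hg (Qr L f b) (Qr_le L f b) (one_mem_Qr L hL.one f hf b)
          rwa [finrank_Qr] at h1
      have h1 := key true
      have h2 := key false
      have h3 := Kr_add L f true
      have h4 := Kr_add L f false
      have h5 := card_Sb f true
      rw [Bool.not_true] at h1 h5
      rw [Bool.not_false] at h2
      rw [← h5]
      have h6 : finrank ℝ (Lr L f true) + finrank ℝ (Kr L f false) +
          (finrank ℝ (Lr L f false) + finrank ℝ (Kr L f true)) = 2 * finrank ℝ L := by omega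
      have h7 : (finrank ℝ (Lr L f true) + finrank ℝ (Kr L f false) +
          (finrank ℝ (Lr L f false) + finrank ℝ (Kr L f true))) * 2 ^ finrank ℝ L =
          2 * finrank ℝ L * 2 ^ finrank ℝ L := by rw [h6]
      nlinarith [h1, h2, h7]

end Pool.Agent.H711.KW
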