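import Pool.Agent.H711.KW.Basic

/-!
# Splitting a space of functions at one of its Boolean members

`Sb f b` is the set of the points where `f` has the value `b`. `split` compares the number of the
Boolean members of a space with those of its restrictions to `Sb f b`.
-/

set_option autoImplicit false
set_option linter.unusedSectionVars false

namespace Pool.Agent.H711.KW

open Module

/-- the points where `f` has the value `b` -/
abbrev Sb {X : Type} (f : X → Bool) (b : Bool) : Type := {x : X // f x = b}

/-- the inclusion of `Sb f b` -/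
abbrev inc {X : Type} (f : X → Bool) (b : Bool) : Sb f b → X := Subtype.val

/-- the restriction of the space to `Sb f b` -/
abbrev Lr {X : Type} (L : Submodule ℝ (X → ℝ)) (f : X → Bool) (b : Bool) :
    Submodule ℝ (Sb f b → ℝ) := L.map (pull (inc f b))

/-- the functions of the space which vanish on `Sb f b` -/
abbrev Kr {X : Type} (L : Submodule ℝ (X → ℝ)) (f : X → Bool) (b : Bool) :
    Submodule ℝ (X → ℝ) := L ⊓ LinearMap.ker (pull (inc f b))

/-- the functions on `Sb f b` whose extension by zero is in the space -/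
abbrev Qr {X : Type} (L : Submodule ℝ (X → ℝ)) (f : X → Bool) (b : Bool) :
    Submodule ℝ (Sb f b → ℝ) := (Kr L f (!b)).map (pull (inc f b))

variable {X : Type}

theorem Qr_le (L : Submodule ℝ (X → ℝ)) (f : X → Bool) (b : Bool) : Qr L f b ≤ Lr L f b :=
  Submodule.map_mono inf_le_left

theorem Kr_add [Finite X] (L : Submodule ℝ (X → ℝ)) (f : X → Bool) (b : Bool) :
    finrank ℝ (Lr L f b) + finrank ℝ (Kr L f b) = finrank ℝ L := rank_null _ L

theorem eq_or (b c : Bool) : c = b ∨ c = !b := by
  cases b <;> cases c <;> simp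

theorem eq_zero_of (f : X → Bool) (b : Bool) (v : X → ℝ) (h1 : pull (inc f b) v = 0)
    (h2 : pull (inc f (!b)) v = 0) : v = 0 := by
  funext x
  rcases eq_or b (f x) with h | h
  · exact congrFun h1 ⟨x, h⟩
  · exact congrFun h2 ⟨x, h⟩

theorem finrank_Qr [Finite X] (L : Submodule ℝ (X → ℝ)) (f : X → Bool) (b : Bool) :
    finrank ℝ (Qr L f b) = finrank ℝ (Kr L f (!b)) :=
  finrank_map_inj _ _ fun v hv h => eq_zero_of f b v h (LinearMap.mem_ker.mp hv.2)

/-- the indicator function of `Sb f b` is in `Kr L f (!b)` -/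
theorem ind_mem (L : Submodule ℝ (X → ℝ)) (h1 : (1 : X → ℝ) ∈ L) (f : X → Bool) (hf : re f ∈ L)
    (b : Bool) : re (fun x => decide (f x = b)) ∈ Kr L f (!b) := by
  refine ⟨?_, ?_⟩
  · cases b
    · have : re (fun x => decide (f x = false)) = 1 - re f := by
        funext x
        rw [Pi.sub_apply, re_apply, re_apply]
        cases f x <;> simp
      rw [this]
      exact L.sub_mem h1 hf
    · have : re (fun x => decide (f x = true)) = re f := by
        funext x
        rw [re_apply, re_apply]
        cases f x <;> simp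
      rw [this]
      exact hf
  · refine LinearMap.mem_ker.mpr ?_
    funext x
    have hx : f x.1 = !b := x.2
    show re (fun x => decide (f x = b)) x.1 = 0
    rw [re_apply, hx]
    cases b <;> simp

theorem one_mem_Qr (L : Submodule ℝ (X → ℝ)) (h1 : (1 : X → ℝ) ∈ L) (f : X → Bool)
    (hf : re f ∈ L) (b : Bool) : (1 : Sb f b → ℝ) ∈ Qr L f b := by
  refine ⟨_, ind_mem L h1 f hf b, ?_⟩
  funext x
  have hx : f x.1 = b := x.2
  show re (fun x => decide (f x = b)) x.1 = 1
  rw [re_apply, hx]
  simp

/-- **The splitting inequality.** -/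
theorem split [Finite X] (L : Submodule ℝ (X → ℝ)) (h1 : (1 : X → ℝ) ∈ L) (f : X → Bool)
    (hf : re f ∈ L) (b : Bool) :
    2 * nb L + nb (Qr L f b) * 2 ^ finrank ℝ (Kr L f b) ≤
      2 * (nb (Qr L f b) * nb (Qr L f (!b))) + nb (Lr L f b) * 2 ^ finrank ℝ (Kr L f b) := by
  classical
  cases nonempty_fintype X
  let U : Submodule ℝ (X → ℝ) := Kr L f b ⊔ Kr L f (!b)
  have hUL : U ≤ L := sup_le inf_le_left inf_le_left
  let S0 : Finset (X → Bool) := Finset.univ.filter fun g => re g ∈ U
  let S1 : Finset (X → Bool) := Finset.univ.filter fun g => re g ∈ L ∧ re g ∉ U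
  let T : Finset (Sb f b → Bool) := Finset.univ.filter fun t => re t ∈ Lr L f b ∧ re t ∉ Qr L f b
  have hnbL : nb L = S0.card + S1.card := by
    unfold nb
    rw [Nat.card_eq_fintype_card, Fintype.card_subtype, ← Finset.card_union_of_disjoint]
    · congr 1
      ext g
      simp only [S0, S1, Finset.mem_filter, Finset.mem_univ, true_and, Finset.mem_union]
      constructor
      · intro h
        by_cases hU : re g ∈ U
        · exact Or.inl hU
        · exact Or.inr ⟨h, hU⟩
      · rintro (h | h)
        · exact hUL h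
        · exact h.1
    · rw [Finset.disjoint_left]
      intro g hg hg'
      exact (Finset.mem_filter.mp hg').2.2 (Finset.mem_filter.mp hg).2
  have hT : nb (Lr L f b) = nb (Qr L f b) + T.card := by
    unfold nb
    rw [Nat.card_eq_fintype_card, Nat.card_eq_fintype_card, Fintype.card_subtype,
      Fintype.card_subtype, ← Finset.card_union_of_disjoint]
    · congr 1
      ext g
      simp only [T, Finset.mem_filter, Finset.mem_univ, true_and, Finset.mem_union]
      constructor
      · intro h
        by_cases hU : re g ∈ Qr L f b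
        · exact Or.inl hU
        · exact Or.inr ⟨h, hU⟩
      · rintro (h | h)
        · exact Qr_le L f b h
        · exact h.1
    · rw [Finset.disjoint_left]
      intro g hg hg'
      exact (Finset.mem_filter.mp hg').2.2 (Finset.mem_filter.mp hg).2
  -- the members of `U`
  have hS0 : S0.card ≤ nb (Qr L f b) * nb (Qr L f (!b)) := by
    have hmem : ∀ g ∈ S0, ∀ c : Bool, re (g ∘ inc f c) ∈ Qr L f c := by
      intro g hg c
      have hgU : re g ∈ U := (Finset.mem_filter.mp hg).2
      have hgU' : re g ∈ Kr L f c ⊔ Kr L f (!c) := by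
        cases b <;> cases c
        · exact hgU
        · exact (sup_comm (Kr L f false) (Kr L f true)) ▸ hgU
        · exact (sup_comm (Kr L f true) (Kr L f false)) ▸ hgU
        · exact hgU
      obtain ⟨u, hu, w, hw, e⟩ := Submodule.mem_sup.mp hgU'
      refine ⟨w, hw, ?_⟩
      have h2 : pull (inc f c) (re g) = re (g ∘ inc f c) := rfl
      rw [← h2, ← e, map_add, LinearMap.mem_ker.mp hu.2, zero_add]
    have := Nat.card_le_card_of_injective
      (α := {g : X → Bool // g ∈ S0})
      (β := {g : Sb f b → Bool // re g ∈ Qr L f b} × {g : Sb f (!b) → Bool // re g ∈ Qr L f (!b)})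
      (fun g => (⟨g.1 ∘ inc f b, hmem g.1 g.2 b⟩, ⟨g.1 ∘ inc f (!b), hmem g.1 g.2 (!b)⟩)) (by
        intro g g' e
        refine Subtype.ext (funext fun x => ?_)
        rcases eq_or b (f x) with h | h
        · exact congrFun (congrArg Subtype.val (congrArg Prod.fst e)) ⟨x, h⟩
        · exact congrFun (congrArg Subtype.val (congrArg Prod.snd e)) ⟨x, h⟩)
    rw [Nat.card_prod] at this
    have h3 : Nat.card {g : X → Bool // g ∈ S0} = S0.card := by
      rw [Nat.card_eq_fintype_card, Fintype.card_coe]
    rw [h3] at this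
    exact this
  -- the other members
  have hS1 : 2 * S1.card ≤ T.card * 2 ^ finrank ℝ (Kr L f b) := by
    have hmaps : ∀ g ∈ S1, g ∘ inc f b ∈ T := by
      intro g hg
      obtain ⟨hgL, hgU⟩ := (Finset.mem_filter.mp hg).2
      refine Finset.mem_filter.mpr ⟨Finset.mem_univ _, ⟨re g, hgL, rfl⟩, ?_⟩
      rintro ⟨w, hw, e⟩
      apply hgU
      have h2 : re g - w ∈ Kr L f b := by
        refine ⟨L.sub_mem hgL hw.1, ?_⟩
        refine LinearMap.mem_ker.mpr ?_
        rw [map_sub, e]
        exact sub_self _
      have h3 : re g = (re g - w) + w := (sub_add_cancel _ _).symm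
      rw [h3]
      exact Submodule.add_mem_sup h2 hw
    have hfib : ∀ t ∈ T, (S1.filter fun g => g ∘ inc f b = t).card ≤
        2 ^ finrank ℝ (Kr L f b) / 2 := by
      intro t _
      rcases Finset.eq_empty_or_nonempty (S1.filter fun g => g ∘ inc f b = t) with h0 | ⟨g₀, hg₀⟩
      · rw [h0]
        exact Nat.zero_le _
      obtain ⟨hg₀S, hg₀t⟩ := Finset.mem_filter.mp hg₀
      obtain ⟨hg₀L, hg₀U⟩ := (Finset.mem_filter.mp hg₀S).2
      have hh : re (g₀ ∘ inc f (!b)) ∉ Qr L f (!b) := by
        rintro ⟨w, hw, e⟩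
        apply hg₀U
        rw [Bool.not_not] at hw
        have h2 : re g₀ - w ∈ Kr L f (!b) := by
          refine ⟨L.sub_mem hg₀L hw.1, ?_⟩
          refine LinearMap.mem_ker.mpr ?_
          rw [map_sub, e]
          exact sub_self _
        have h3 : re g₀ = w + (re g₀ - w) := (add_sub_cancel _ _).symm
        rw [h3]
        exact Submodule.add_mem_sup hw h2
      have h4 := coset_le (Qr L f (!b)) (one_mem_Qr L h1 f hf (!b)) _ hh
      rw [finrank_Qr, Bool.not_not] at h4
      have h5 := Nat.card_le_card_of_injective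
        (α := {g : X → Bool // g ∈ S1.filter fun g => g ∘ inc f b = t})
        (β := {g : Sb f (!b) → Bool // re g - re (g₀ ∘ inc f (!b)) ∈ Qr L f (!b)})
        (fun g => ⟨g.1 ∘ inc f (!b), by
          obtain ⟨hgS, hgt⟩ := Finset.mem_filter.mp g.2
          obtain ⟨hgL, _⟩ := (Finset.mem_filter.mp hgS).2
          refine ⟨re g.1 - re g₀, ?_, rfl⟩
          rw [Bool.not_not]
          refine ⟨L.sub_mem hgL hg₀L, ?_⟩
          refine LinearMap.mem_ker.mpr ?_
          rw [map_sub, pull_re, pull_re, hgt, hg₀t, sub_self]⟩) (by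
          intro g g' e
          have hgt := (Finset.mem_filter.mp g.2).2
          have hgt' := (Finset.mem_filter.mp g'.2).2
          refine Subtype.ext (funext fun x => ?_)
          rcases eq_or b (f x) with h | h
          · exact congrFun (hgt.trans hgt'.symm) ⟨x, h⟩
          · exact congrFun (congrArg Subtype.val e) ⟨x, h⟩)
      have h6 : Nat.card {g : X → Bool // g ∈ S1.filter fun g => g ∘ inc f b = t} =
          (S1.filter fun g => g ∘ inc f b = t).card := by
        rw [Nat.card_eq_fintype_card, Fintype.card_coe]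
      rw [h6] at h5
      omega
    have h7 := Finset.card_le_mul_card_image_of_maps_to hmaps _ hfib
    have h8 : 2 * (2 ^ finrank ℝ (Kr L f b) / 2) ≤ 2 ^ finrank ℝ (Kr L f b) :=
      Nat.mul_div_le _ _
    calc 2 * S1.card ≤ 2 * (2 ^ finrank ℝ (Kr L f b) / 2 * T.card) := Nat.mul_le_mul_left 2 h7
      _ = (2 * (2 ^ finrank ℝ (Kr L f b) / 2)) * T.card := by ring
      _ ≤ 2 ^ finrank ℝ (Kr L f b) * T.card := Nat.mul_le_mul_right _ h8
      _ = _ := by ring
  rw [hnbL, hT]
  nlinarith [hS0, hS1]

end Pool.Agent.H711.KW
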