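import Pool.Agent.H711.KW.Main

/-!
# Stability in the inequality of Kupavskii and Weltge

`stable`: for a good space `L` of dimension `D` on more than `D` points with more than `2 * D`
Boolean members, the number of the points times the number of the Boolean members is at most
`(D - 1 / 8) * 2 ^ D`.
-/

set_option autoImplicit false
set_option linter.unusedSectionVars false

namespace Pool.Agent.H711.KW

open Module

variable {X : Type}

theorem arithC (N x x' k k' Db Nb : ℕ) (B : 2 * N + x * 2 ^ k ≤ 2 * (x * x') + Nb * 2 ^ k)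
    (C : x' ≤ 2 ^ k) (hx : x ≤ 2 ^ k') (hN : Nb ≤ 2 ^ Db) (hlt : k' < Db) :
    4 * N ≤ 3 * 2 ^ (Db + k) := by
  have h1 : x * x' ≤ x * 2 ^ k := Nat.mul_le_mul_left _ C
  have h2 : 2 * 2 ^ k' ≤ 2 ^ Db := by
    calc 2 * 2 ^ k' = 2 ^ (k' + 1) := by rw [pow_succ]; ring
      _ ≤ 2 ^ Db := Nat.pow_le_pow_right two_pos hlt
  have h3 : x * 2 ^ k ≤ 2 ^ k' * 2 ^ k := Nat.mul_le_mul_right _ hx
  have h4 : Nb * 2 ^ k ≤ 2 ^ Db * 2 ^ k := Nat.mul_le_mul_right _ hN
  have h5 : 2 * 2 ^ k' * 2 ^ k ≤ 2 ^ Db * 2 ^ k := Nat.mul_le_mul_right _ h2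
  rw [pow_add]
  nlinarith [h1, h3, h4, h5]

/-- The functions glued from the Boolean members of the two spaces `Qr`. -/
theorem glue_le [Finite X] (L : Submodule ℝ (X → ℝ)) (f : X → Bool) :
    nb (Qr L f true) * nb (Qr L f false) ≤ nb L := by
  unfold nb
  rw [← Nat.card_prod]
  let F : {g : Sb f true → Bool // re g ∈ Qr L f true} ×
      {g : Sb f false → Bool // re g ∈ Qr L f false} → (X → Bool) := fun p x =>
    if h : f x = true then p.1.1 ⟨x, h⟩ else p.2.1 ⟨x, by simpa using h⟩
  have hF : ∀ p, re (F p) ∈ L := by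
    rintro ⟨⟨g, hg⟩, ⟨g', hg'⟩⟩
    obtain ⟨w, hw, e⟩ := hg
    obtain ⟨w', hw', e'⟩ := hg'
    have h1 : re (F ⟨⟨g, ⟨w, hw, e⟩⟩, ⟨g', ⟨w', hw', e'⟩⟩⟩) = w + w' := by
      funext x
      cases hx : f x with
      | true =>
        have h2 := congrFun e ⟨x, hx⟩
        have h3 := congrFun (LinearMap.mem_ker.mp hw'.2) ⟨x, by simpa using hx⟩
        have h2' : w x = re g ⟨x, hx⟩ := h2
        have h3' : w' x = 0 := h3
        rw [Pi.add_apply, h2', h3', add_zero]
        simp only [re_apply, F, hx, dite_true]
      | false =>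
        have h2 := congrFun e' ⟨x, hx⟩
        have h3 := congrFun (LinearMap.mem_ker.mp hw.2) ⟨x, by simpa using hx⟩
        have h2' : w' x = re g' ⟨x, hx⟩ := h2
        have h3' : w x = 0 := h3
        rw [Pi.add_apply, h2', h3', zero_add]
        simp only [re_apply, F, hx, Bool.false_eq_true, dite_false]
    rw [h1]
    exact L.add_mem hw.1 hw'.1
  refine Nat.card_le_card_of_injective (fun p => (⟨F p, hF p⟩ : {g : X → Bool // re g ∈ L})) ?_
  rintro ⟨g, g'⟩ ⟨h, h'⟩ e
  have e' : F (g, g') = F (h, h') := congrArg Subtype.val e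
  refine Prod.ext (Subtype.ext (funext fun x => ?_)) (Subtype.ext (funext fun x => ?_))
  · have h1 := congrFun e' x.1
    have hx : f x.1 = true := x.2
    simp only [F, hx, dite_true] at h1
    exact h1
  · have h1 := congrFun e' x.1
    have hx : f x.1 = false := x.2
    simp only [F, hx, Bool.false_eq_true, dite_false] at h1
    exact h1

theorem nb_top [Finite X] : nb (⊤ : Submodule ℝ (X → ℝ)) = 2 ^ Nat.card X := by
  classical
  cases nonempty_fintype X
  unfold nb
  rw [Nat.card_congr (Equiv.subtypeUnivEquiv fun g => Submodule.mem_top), Nat.card_eq_fintype_card,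
    Nat.card_eq_fintype_card]
  simp

theorem finrank_fun [Finite X] : finrank ℝ (X → ℝ) = Nat.card X := by
  cases nonempty_fintype X
  rw [Module.finrank_pi, Nat.card_eq_fintype_card]

theorem finrank_le_card [Finite X] (L : Submodule ℝ (X → ℝ)) : finrank ℝ L ≤ Nat.card X := by
  rw [← finrank_fun]
  exact Submodule.finrank_le L

theorem kk_le [Finite X] (L : Submodule ℝ (X → ℝ)) (f : X → Bool) (b : Bool) :
    finrank ℝ (Kr L f (!b)) ≤ finrank ℝ (Lr L f b) := by
  rw [← finrank_Qr]
  exact Submodule.finrank_mono (Qr_le L f b)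

/-- Full or at most three quarters. -/
theorem lemC : ∀ (n : ℕ) (X : Type) [Finite X] [Nonempty X] (L : Submodule ℝ (X → ℝ)), Good L →
    Nat.card X = n → nb L = 2 ^ finrank ℝ L ∨ 4 * nb L ≤ 3 * 2 ^ finrank ℝ L := by
  intro n
  induction n using Nat.strong_induction_on with
  | _ n ih =>
    intro X _ _ L hL hn
    rcases subsingleton_or_nontrivial X with h | h
    · left
      have h1 := hL.one_le
      have h2 := finrank_le_card L
      have h3 : L = ⊤ := Submodule.eq_top_of_finrank_eq (by
        rw [finrank_fun]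
        rw [card_one] at h2 ⊢
        omega)
      rw [h3, nb_top, finrank_top, finrank_fun]
    · obtain ⟨x, y, hxy⟩ := h.exists_pair_ne
      obtain ⟨f, hf, hne⟩ := hL.exists_split hxy
      have hC : ∀ b, nb (Qr L f (!b)) ≤ 2 ^ finrank ℝ (Kr L f b) := by
        intro b
        have h1 := nb_le (Qr L f (!b))
        rwa [finrank_Qr, Bool.not_not] at h1
      have hx : ∀ b, nb (Qr L f b) ≤ 2 ^ finrank ℝ (Kr L f (!b)) := by
        intro b
        have h1 := nb_le (Qr L f b)
        rwa [finrank_Qr] at h1
      have h3 := Kr_add L f true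
      have h4 := Kr_add L f false
      have h5 : finrank ℝ (Kr L f false) ≤ finrank ℝ (Lr L f true) := kk_le L f true
      have h6 : finrank ℝ (Kr L f true) ≤ finrank ℝ (Lr L f false) := kk_le L f false
      have hs := split L hL.one f hf true
      rcases Nat.lt_or_ge (finrank ℝ (Kr L f false)) (finrank ℝ (Lr L f true)) with hlt | hge
      · right
        rw [← h3]
        exact arithC _ _ _ _ _ _ _ hs (hC true) (hx true) (nb_le _) hlt
      · have e1 : ∀ b, Qr L f b = Lr L f b := by
          intro b
          refine Submodule.eq_of_le_of_finrank_le (Qr_le L f b) ?_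
          rw [finrank_Qr]
          cases b
          · rw [Bool.not_false]
            omega
          · exact hge
        have e2 : finrank ℝ L = finrank ℝ (Kr L f true) + finrank ℝ (Kr L f false) := by
          omega
        have hN : nb L = nb (Qr L f true) * nb (Qr L f false) := by
          refine le_antisymm ?_ (glue_le L f)
          rw [← e1 true, Bool.not_true] at hs
          omega
        have hd : ∀ b, nb (Qr L f b) = 2 ^ finrank ℝ (Kr L f (!b)) ∨
            4 * nb (Qr L f b) ≤ 3 * 2 ^ finrank ℝ (Kr L f (!b)) := by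
          intro b
          haveI := hne b
          have h1 := ih (Nat.card (Sb f b)) (hn ▸ card_lt f b (hne _)) (Sb f b) (Lr L f b)
            (hL.map _ Subtype.val_injective) rfl
          rwa [← e1 b, finrank_Qr] at h1
        rcases hd true with h7 | h7
        · rcases hd false with h8 | h8
          · left
            rw [hN, h7, h8, e2, pow_add, Bool.not_true, Bool.not_false, mul_comm]
          · right
            rw [hN, e2, pow_add]
            have h9 := hx true
            rw [Bool.not_true] at h9
            rw [Bool.not_false] at h8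
            calc 4 * (nb (Qr L f true) * nb (Qr L f false))
                = nb (Qr L f true) * (4 * nb (Qr L f false)) := by ring
              _ ≤ 2 ^ finrank ℝ (Kr L f false) * (3 * 2 ^ finrank ℝ (Kr L f true)) :=
                  Nat.mul_le_mul h9 h8
              _ = _ := by ring
        · right
          rw [hN, e2, pow_add]
          have h9 := hx false
          rw [Bool.not_false] at h9
          rw [Bool.not_true] at h7
          calc 4 * (nb (Qr L f true) * nb (Qr L f false))
              = (4 * nb (Qr L f true)) * nb (Qr L f false) := by ring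
            _ ≤ (3 * 2 ^ finrank ℝ (Kr L f false)) * 2 ^ finrank ℝ (Kr L f true) :=
                Nat.mul_le_mul h7 h9
            _ = _ := by ring

theorem lemC' [Finite X] [Nonempty X] (Q : Submodule ℝ (X → ℝ)) (h1 : (1 : X → ℝ) ∈ Q) :
    nb Q = 2 ^ finrank ℝ Q ∨ 4 * nb Q ≤ 3 * 2 ^ finrank ℝ Q := by
  obtain ⟨P, π, LP, hπ, hLP, hle, hnb⟩ := reduce Q h1
  haveI : Finite P := Finite.of_surjective π hπ
  haveI : Nonempty P := Nonempty.map π inferInstance
  have h4 := finrank_le_of_map π hπ LP Q hle
  rcases Nat.lt_or_ge (finrank ℝ LP) (finrank ℝ Q) with h5 | h5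
  · right
    have h6 := nb_le LP
    rw [hnb] at h6
    have h7 : 2 * 2 ^ finrank ℝ LP ≤ 2 ^ finrank ℝ Q := by
      calc 2 * 2 ^ finrank ℝ LP = 2 ^ (finrank ℝ LP + 1) := by rw [pow_succ]; ring
        _ ≤ _ := Nat.pow_le_pow_right two_pos h5
    omega
  · have h6 : finrank ℝ LP = finrank ℝ Q := le_antisymm h4 h5
    rw [← hnb, ← h6]
    exact lemC _ P LP hLP rfl

/-- Spaces on many points have few Boolean members. -/
theorem lemD : ∀ (n : ℕ) (X : Type) [Finite X] [Nonempty X] (L : Submodule ℝ (X → ℝ)), Good L →
    Nat.card X = n → 3 * 2 ^ finrank ℝ L < 8 * Nat.card X → nb L ≤ 2 * finrank ℝ L := by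
  intro n
  induction n using Nat.strong_induction_on with
  | _ n ih =>
    intro X _ _ L hL hn hbig
    rcases subsingleton_or_nontrivial X with h | h
    · have h1 := hL.one_le
      have h2 := finrank_le_card L
      rw [card_one] at h2
      have h3 := nb_le L
      have h4 : finrank ℝ L = 1 := le_antisymm h2 h1
      rw [h4] at h3 ⊢
      simpa using h3
    · obtain ⟨x, y, hxy⟩ := h.exists_pair_ne
      obtain ⟨f, hf, hne⟩ := hL.exists_split hxy
      have hC : ∀ b, nb (Qr L f (!b)) ≤ 2 ^ finrank ℝ (Kr L f b) := by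
        intro b
        have h1 := nb_le (Qr L f (!b))
        rwa [finrank_Qr, Bool.not_not] at h1
      have hA : ∀ b, finrank ℝ (Lr L f b) + finrank ℝ (Kr L f b) = finrank ℝ L :=
        fun b => Kr_add L f b
      have hk : ∀ b, 1 ≤ finrank ℝ (Kr L f b) := fun b => one_le_Kr L hL.one f hf b (hne _)
      have hsz : ∀ b, 2 * Nat.card (Sb f b) ≤ 2 ^ finrank ℝ (Lr L f b) := by
        intro b
        haveI := hne b
        exact size _ (Sb f b) (Lr L f b) (hL.map _ Subtype.val_injective) rfl
      have hc : ∀ b, Nat.card (Sb f b) + Nat.card (Sb f (!b)) = Nat.card X := card_Sb f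
      have hk1 : ∀ b, finrank ℝ (Kr L f b) = 1 := by
        intro b
        by_contra hb
        have h2 : 2 ≤ finrank ℝ (Kr L f b) := by
          have := hk b
          omega
        have h3 : 8 * Nat.card (Sb f b) ≤ 2 ^ finrank ℝ L := by
          calc 8 * Nat.card (Sb f b) = 4 * (2 * Nat.card (Sb f b)) := by ring
            _ ≤ 4 * 2 ^ finrank ℝ (Lr L f b) := Nat.mul_le_mul_left 4 (hsz b)
            _ = 2 ^ (finrank ℝ (Lr L f b) + 2) := by rw [pow_add]; ring
            _ ≤ _ := Nat.pow_le_pow_right two_pos (by have := hA b; omega)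
        have h4 : 8 * Nat.card (Sb f (!b)) ≤ 2 * 2 ^ finrank ℝ L := by
          calc 8 * Nat.card (Sb f (!b)) = 4 * (2 * Nat.card (Sb f (!b))) := by ring
            _ ≤ 4 * 2 ^ finrank ℝ (Lr L f (!b)) := Nat.mul_le_mul_left 4 (hsz (!b))
            _ = 2 * 2 ^ (finrank ℝ (Lr L f (!b)) + 1) := by rw [pow_succ]; ring
            _ ≤ _ := Nat.mul_le_mul_left 2
                (Nat.pow_le_pow_right two_pos (by have := hA (!b); have := hk (!b); omega))
        have := hc b
        omega
      have hp : ∀ b, 2 ^ finrank ℝ L = 2 * 2 ^ finrank ℝ (Lr L f b) := by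
        intro b
        have h1 := hA b
        have h2 := hk1 b
        have h3 : finrank ℝ L = finrank ℝ (Lr L f b) + 1 := by omega
        rw [h3, pow_succ]
        ring
      have hb : ∃ b, 3 * 2 ^ finrank ℝ (Lr L f b) < 8 * Nat.card (Sb f b) := by
        by_contra hcon
        push Not at hcon
        have h1 := hcon true
        have h2 := hcon false
        have h3 := hp true
        have h4 := hp false
        have h5 := hc true
        rw [Bool.not_true] at h5
        omega
      obtain ⟨b, hb⟩ := hb
      haveI := hne b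
      have h1 := ih (Nat.card (Sb f b)) (hn ▸ card_lt f b (hne _)) (Sb f b) (Lr L f b)
        (hL.map _ Subtype.val_injective) rfl hb
      have h2 := split L hL.one f hf b
      have h3 := hC b
      have h4 := hC (!b)
      rw [Bool.not_not] at h4
      have h5 := hA b
      rw [hk1] at h2 h3 h4 h5
      have h6 : nb (Qr L f b) * nb (Qr L f (!b)) ≤ nb (Qr L f b) * 2 := Nat.mul_le_mul_left _ h3
      omega

end Pool.Agent.H711.KW
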