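import Pool.Agent.H711.KW.Stable

/-!
# Stability in the inequality of Kupavskii and Weltge, second part
-/

set_option autoImplicit false
set_option linter.unusedSectionVars false

namespace Pool.Agent.H711.KW

open Module

variable {X : Type}

/-- A space with `2 ^ dim` Boolean members consists of the functions constant on the classes of a
partition into `dim` classes. -/
theorem full_reduce [Finite X] (Q : Submodule ℝ (X → ℝ)) (h1 : (1 : X → ℝ) ∈ Q)
    (hfull : nb Q = 2 ^ finrank ℝ Q) :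
    ∃ (P : Type) (π : X → P), Function.Surjective π ∧ Nat.card P = finrank ℝ Q ∧
      Q = LinearMap.range (pull π) := by
  obtain ⟨P, π, LP, hπ, hLP, hle, hnb⟩ := reduce Q h1
  have : Finite P := Finite.of_surjective π hπ
  have h4 := finrank_le_of_map π hπ LP Q hle
  have h5 : finrank ℝ LP = finrank ℝ Q := by
    refine le_antisymm h4 ?_
    have h6 := nb_le LP
    rw [hnb, hfull] at h6
    exact (Nat.pow_le_pow_iff_right one_lt_two).mp h6
  have h6 := kw _ P LP hLP rfl
  rw [hnb, hfull, h5] at h6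
  have h7 : Nat.card P ≤ finrank ℝ Q := Nat.le_of_mul_le_mul_right h6 (Nat.pow_pos two_pos)
  have h8 := finrank_le_card LP
  have h9 : Nat.card P = finrank ℝ Q := by omega
  have h10 : LP = ⊤ := Submodule.eq_top_of_finrank_eq (by rw [finrank_fun, h5, h9])
  refine ⟨P, π, hπ, h9, ?_⟩
  rw [← Submodule.map_top, ← h10]
  refine (Submodule.eq_of_le_of_finrank_eq hle ?_).symm
  rw [finrank_map_inj (pull π) LP fun v _ hv => pull_inj π hπ v hv, h5]

theorem lemF [Finite X] {P : Type} [Finite P] [Nonempty P] (L : Submodule ℝ (X → ℝ)) (hL : Good L)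
    (π : X → P) (hπ : Function.Surjective π) (hle : LinearMap.range (pull π) ≤ L) (e : ℕ)
    (hD : finrank ℝ L = Nat.card P + e)
    (hbig : ∀ p, 3 * 2 ^ e < 4 * Nat.card {x // π x = p}) : nb L ≤ 2 ^ Nat.card P + 2 * e := by
  classical
  let U : Submodule ℝ (X → ℝ) := LinearMap.range (pull π)
  have hne : ∀ p, Nonempty {x // π x = p} := by
    intro p
    obtain ⟨x, hx⟩ := hπ p
    exact ⟨⟨x, hx⟩⟩
  have hkf := fun p => ker_fibre L π hπ ⊤ Submodule.mem_top (by rw [Submodule.map_top]; exact hle) p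
  have hdim : ∀ p, finrank ℝ (L.map (pull (Subtype.val : {x // π x = p} → X))) = e + 1 ∧
      L ⊓ LinearMap.ker (pull (Subtype.val : {x // π x = p} → X)) ≤ U := by
    intro p
    have := hne p
    obtain ⟨h2, h3⟩ := hkf p
    rw [finrank_top, finrank_fun] at h3
    have h4 := rank_null (pull (Subtype.val : {x // π x = p} → X)) L
    have h5 := Submodule.finrank_mono h2
    have h6 := size _ {x // π x = p} (L.map (pull Subtype.val)) (hL.map _ Subtype.val_injective) rfl
    have h7 := hbig p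
    have h8 : e < finrank ℝ (L.map (pull (Subtype.val : {x // π x = p} → X))) := by
      by_contra hcon
      push Not at hcon
      have h9 : 2 ^ finrank ℝ (L.map (pull (Subtype.val : {x // π x = p} → X))) ≤ 2 ^ e :=
        Nat.pow_le_pow_right two_pos hcon
      omega
    have h9 : finrank ℝ (L.map (pull (Subtype.val : {x // π x = p} → X))) = e + 1 := by omega
    refine ⟨h9, ?_⟩
    rw [← Submodule.eq_of_le_of_finrank_le h2 (by omega)]
    rintro _ ⟨u, _, rfl⟩
    exact ⟨u, rfl⟩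
  have hcon : ∀ b : Bool, re (fun _ : X => b) ∈ U := fun b => ⟨re (fun _ : P => b), rfl⟩
  have hnc : ∀ g : X → Bool, re g ∈ L → re g ∉ U → ∀ q b, ∃ x, π x = q ∧ g x ≠ b := by
    intro g hg hgU q b
    by_contra hno
    push Not at hno
    apply hgU
    have h1 : re g - re (fun _ => b) ∈ U := by
      refine (hdim q).2 ⟨L.sub_mem hg (hle (hcon b)), LinearMap.mem_ker.mpr ?_⟩
      funext x
      show re g x.1 - re (fun _ => b) x.1 = 0
      rw [re_apply, re_apply, hno x.1 x.2, sub_self]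
    have h2 : re g = (re g - re (fun _ => b)) + re (fun _ => b) := (sub_add_cancel _ _).symm
    rw [h2]
    exact U.add_mem h1 (hcon b)
  let p : P := Classical.arbitrary P
  have := hne p
  have hnbC : nb (L.map (pull (Subtype.val : {x // π x = p} → X))) ≤ 2 * (e + 1) := by
    have h1 := lemD _ {x // π x = p} (L.map (pull Subtype.val)) (hL.map _ Subtype.val_injective) rfl
    rw [(hdim p).1] at h1
    refine h1 ?_
    have h2 := hbig p
    rw [pow_succ]
    omega
  have hnbU : nb U ≤ 2 ^ Nat.card P := by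
    have h1 := nb_le U
    have h2 : finrank ℝ U = Nat.card P := by
      have h3 := finrank_map_inj (pull π) ⊤ fun v _ hv => pull_inj π hπ v hv
      rw [Submodule.map_top, finrank_top, finrank_fun] at h3
      exact h3
    rwa [h2] at h1
  let F : {g : X → Bool // re g ∈ L} ⊕ Bool → {g : X → Bool // re g ∈ U} ⊕
      {g : {x // π x = p} → Bool // re g ∈ L.map (pull (Subtype.val : {x // π x = p} → X))} :=
    fun s => match s with
      | Sum.inl g => if h : re g.1 ∈ U then Sum.inl ⟨g.1, h⟩ else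
          Sum.inr ⟨g.1 ∘ Subtype.val, ⟨re g.1, g.2, rfl⟩⟩
      | Sum.inr b => Sum.inr ⟨fun _ => b, ⟨re (fun _ => b), hle (hcon b), rfl⟩⟩
  have hmix : ∀ (g : {g : X → Bool // re g ∈ L}) (b : Bool), F (Sum.inl g) ≠ F (Sum.inr b) := by
    intro g b he
    by_cases h : re g.1 ∈ U
    · simp only [F, h, dite_true] at he
      exact Sum.inl_ne_inr he
    · simp only [F, h, dite_false] at he
      have h1 := congrArg Subtype.val (Sum.inr.inj he)
      obtain ⟨x, hx, hxb⟩ := hnc g.1 g.2 h p b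
      exact hxb (congrFun h1 ⟨x, hx⟩)
  have hF : Function.Injective F := by
    rintro (g | b) (g' | b') he
    · by_cases h : re g.1 ∈ U
      · by_cases h' : re g'.1 ∈ U
        · simp only [F, h, h', dite_true] at he
          have h1 := congrArg Subtype.val (Sum.inl.inj he)
          exact congrArg Sum.inl (Subtype.ext h1)
        · simp only [F, h, h', dite_true, dite_false] at he
          exact absurd he Sum.inl_ne_inr
      · by_cases h' : re g'.1 ∈ U
        · simp only [F, h, h', dite_true, dite_false] at he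
          exact absurd he Sum.inr_ne_inl
        · simp only [F, h, h', dite_false] at he
          have h1 : g.1 ∘ Subtype.val = g'.1 ∘ (Subtype.val : {x // π x = p} → X) :=
            congrArg Subtype.val (Sum.inr.inj he)
          have h2 : re g.1 - re g'.1 ∈ U := by
            refine (hdim p).2 ⟨L.sub_mem g.2 g'.2, LinearMap.mem_ker.mpr ?_⟩
            rw [map_sub, pull_re, pull_re, h1, sub_self]
          obtain ⟨u, hu⟩ := h2
          have hu' : ∀ x, u (π x) = re g.1 x - re g'.1 x := fun x => congrFun hu x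
          refine congrArg Sum.inl (Subtype.ext (re_inj (funext fun x => ?_)))
          obtain ⟨y, hy, hgy⟩ := hnc g.1 g.2 h (π x) false
          obtain ⟨z, hz, hgz⟩ := hnc g.1 g.2 h (π x) true
          have hgy' : g.1 y = true := by simpa using hgy
          have hgz' : g.1 z = false := by simpa using hgz
          have e1 := hu' y
          have e2 := hu' z
          have e3 := hu' x
          rw [hy, re_apply, hgy'] at e1
          rw [hz, re_apply, hgz'] at e2
          have e4 : u (π x) = 0 := by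
            rcases re_int g'.1 y with h3 | h3 <;> rcases re_int g'.1 z with h4 | h4 <;>
              rw [h3] at e1 <;> rw [h4] at e2 <;> norm_num at e1 e2 <;> linarith
          rw [e4] at e3
          linarith
    · exact absurd he (hmix g b')
    · exact absurd he.symm (hmix g' b)
    · have h1 := congrArg Subtype.val (Sum.inr.inj he)
      exact congrArg Sum.inr (congrFun h1 (Classical.arbitrary _))
  have hfin := Nat.card_le_card_of_injective F hF
  rw [Nat.card_sum, Nat.card_sum] at hfin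
  have h3 : Nat.card Bool = 2 := by simp
  rw [h3] at hfin
  change nb L + 2 ≤ nb U + nb (L.map (pull (Subtype.val : {x // π x = p} → X))) at hfin
  omega

theorem arith2 (n N x x' k k' D Db Nb : ℕ) (A : Db + k = D)
    (B : 2 * N + x * 2 ^ k ≤ 2 * (x * x') + Nb * 2 ^ k) (C : 4 * x' ≤ 3 * 2 ^ k)
    (hD : n * Nb ≤ Db * 2 ^ Db) (hE : n * x ≤ k' * 2 ^ Db) :
    4 * (n * N) ≤ (2 * Db + k') * 2 ^ D := by
  subst A
  have h1 : n * (2 * N + x * 2 ^ k) ≤ n * (2 * (x * x') + Nb * 2 ^ k) := Nat.mul_le_mul_left n B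
  have h2 : n * x * (4 * x') ≤ n * x * (3 * 2 ^ k) := Nat.mul_le_mul_left _ C
  have h3 : n * Nb * 2 ^ k ≤ Db * 2 ^ Db * 2 ^ k := Nat.mul_le_mul_right _ hD
  have h4 : n * x * 2 ^ k ≤ k' * 2 ^ Db * 2 ^ k := Nat.mul_le_mul_right _ hE
  rw [pow_add]
  nlinarith [h1, h2, h3, h4]

theorem arith3 (n N x x' k k' e D Db Nb : ℕ) (A : Db + k = D) (A' : Db = k' + e)
    (B : 2 * N + x * 2 ^ k ≤ 2 * (x * x') + Nb * 2 ^ k) (C : x' ≤ 2 ^ k)
    (hx : x ≤ 2 ^ k') (hD : n * Nb ≤ Db * 2 ^ Db) (hE : 4 * n + 2 ^ e ≤ 4 * k' * 2 ^ e) :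
    8 * (n * N) + 2 ^ D ≤ 4 * (Db + k') * 2 ^ D := by
  subst A
  have h1 : n * (2 * N + x * 2 ^ k) ≤ n * (2 * (x * x') + Nb * 2 ^ k) := Nat.mul_le_mul_left n B
  have h2 : n * x * x' ≤ n * x * 2 ^ k := Nat.mul_le_mul_left _ C
  have h3 : n * Nb * 2 ^ k ≤ Db * 2 ^ Db * 2 ^ k := Nat.mul_le_mul_right _ hD
  have h4 : n * x * 2 ^ k ≤ n * 2 ^ k' * 2 ^ k := Nat.mul_le_mul_right _ (Nat.mul_le_mul_left _ hx)
  have h5 : (4 * n + 2 ^ e) * (2 ^ k' * 2 ^ k) ≤ 4 * k' * 2 ^ e * (2 ^ k' * 2 ^ k) :=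
    Nat.mul_le_mul_right _ hE
  have h6 : 2 ^ Db = 2 ^ k' * 2 ^ e := by rw [A', pow_add]
  rw [pow_add]
  have h7 : 2 ^ Db * 2 ^ k = 2 ^ e * (2 ^ k' * 2 ^ k) := by rw [h6]; ring
  have h8 : 8 * (n * N) ≤ 4 * (n * (2 ^ k' * 2 ^ k)) + 4 * Db * (2 ^ Db * 2 ^ k) := by
    nlinarith [h1, h2, h3, h4]
  have h9 : 4 * (n * (2 ^ k' * 2 ^ k)) + 2 ^ Db * 2 ^ k ≤ 4 * k' * (2 ^ Db * 2 ^ k) := by
    rw [h7]
    nlinarith [h5]
  nlinarith [h8, h9]

theorem pow_ge (s : ℕ) (hs : 3 ≤ s) : 8 * s ≤ 3 * 2 ^ s := by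
  induction s, hs using Nat.le_induction with
  | base => norm_num
  | succ n hn ih =>
    rw [pow_succ]
    omega

theorem arith4 (n N s e : ℕ) (hs : 3 ≤ s) (he : 1 ≤ e) (hn : n ≤ s * 2 ^ e)
    (hN : N ≤ 2 ^ s + 2 * e) : 8 * (n * N) + 2 ^ (s + e) ≤ 8 * (s + e) * 2 ^ (s + e) := by
  have h1 := pow_ge s hs
  have h2 : n * N ≤ s * 2 ^ e * (2 ^ s + 2 * e) := Nat.mul_le_mul hn hN
  have h3 : 8 * s * (2 * e * 2 ^ e) ≤ 3 * 2 ^ s * (2 * e * 2 ^ e) := Nat.mul_le_mul_right _ h1
  have h4 : 1 * (2 ^ s * 2 ^ e) ≤ e * (2 ^ s * 2 ^ e) := Nat.mul_le_mul_right _ he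
  rw [pow_add]
  nlinarith [h2, h3, h4]

end Pool.Agent.H711.KW
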