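import Pool.Agent.H711.KW.Stable2

/-!
# Stability in the inequality of Kupavskii and Weltge, third part
-/

set_option autoImplicit false
set_option linter.unusedSectionVars false

namespace Pool.Agent.H711.KW

open Module

variable {X : Type}

/-- the common quantities of the two sides of a split -/
theorem side [Finite X] (L : Submodule ℝ (X → ℝ)) (hL : Good L) (f : X → Bool) (b : Bool) :
    Nat.card (Sb f b) * nb (Lr L f b) ≤ finrank ℝ (Lr L f b) * 2 ^ finrank ℝ (Lr L f b) :=
  kw _ (Sb f b) (Lr L f b) (hL.map _ Subtype.val_injective) rfl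

theorem sideQ [Finite X] (L : Submodule ℝ (X → ℝ)) (hL : Good L) (f : X → Bool)
    (hf : re f ∈ L) (b : Bool) :
    Nat.card (Sb f b) * nb (Qr L f b) ≤
      finrank ℝ (Kr L f (!b)) * 2 ^ finrank ℝ (Lr L f b) := by
  have h1 := lemB (fun P _ _ LP hLP => kw _ P LP hLP rfl)
    (Lr L f b) (hL.map _ Subtype.val_injective) (Qr L f b) (Qr_le L f b)
    (one_mem_Qr L hL.one f hf b)
  rwa [finrank_Qr] at h1

theorem sideC [Finite X] (L : Submodule ℝ (X → ℝ)) (f : X → Bool) (b : Bool) :
    nb (Qr L f (!b)) ≤ 2 ^ finrank ℝ (Kr L f b) := by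
  have h1 := nb_le (Qr L f (!b))
  rwa [finrank_Qr, Bool.not_not] at h1

theorem sideX [Finite X] (L : Submodule ℝ (X → ℝ)) (f : X → Bool) (b : Bool) :
    nb (Qr L f b) ≤ 2 ^ finrank ℝ (Kr L f (!b)) := by
  have h1 := nb_le (Qr L f b)
  rwa [finrank_Qr] at h1

/-- the inequality for one side -/
theorem sideN [Finite X] (L : Submodule ℝ (X → ℝ)) (hL : Good L) (f : X → Bool)
    (hf : re f ∈ L) (b : Bool) :
    2 * (Nat.card (Sb f b) * nb L) ≤
      (finrank ℝ (Lr L f b) + finrank ℝ (Kr L f (!b))) * 2 ^ finrank ℝ L :=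
  arith1 _ _ (nb (Qr L f b)) (nb (Qr L f (!b))) (finrank ℝ (Kr L f b)) _ _ _
    (nb (Lr L f b)) (Kr_add L f b) (split L hL.one f hf b) (sideC L f b) (side L hL f b)
    (sideQ L hL f hf b)

/-- **Case 1.** -/
theorem case1 [Finite X] (L : Submodule ℝ (X → ℝ)) (hL : Good L) (f : X → Bool)
    (hf : re f ∈ L) (hne : ∀ b, Nonempty (Sb f b)) (b : Bool)
    (h : nb (Qr L f (!b)) ≠ 2 ^ finrank ℝ (Kr L f b)) :
    8 * (Nat.card X * nb L) + 2 ^ finrank ℝ L ≤ 8 * finrank ℝ L * 2 ^ finrank ℝ L := by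
  have := hne (!b)
  have h1 : 4 * nb (Qr L f (!b)) ≤ 3 * 2 ^ finrank ℝ (Kr L f b) := by
    have h2 := lemC' (Qr L f (!b)) (one_mem_Qr L hL.one f hf (!b))
    rw [finrank_Qr, Bool.not_not] at h2
    exact h2.resolve_left h
  have h2 := arith2 _ _ (nb (Qr L f b)) (nb (Qr L f (!b))) (finrank ℝ (Kr L f b)) _ _ _
    (nb (Lr L f b)) (Kr_add L f b) (split L hL.one f hf b) h1 (side L hL f b)
    (sideQ L hL f hf b)
  have h3 := sideN L hL f hf (!b)
  rw [Bool.not_not] at h3
  have h4 := Kr_add L f b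
  have h5 := Kr_add L f (!b)
  have h6 := card_Sb f b
  have h7 := one_le_Kr L hL.one f hf (!b) (by rw [Bool.not_not]; exact hne b)
  have h8 : (4 * finrank ℝ (Lr L f b) + 2 * finrank ℝ (Kr L f (!b)) +
      4 * (finrank ℝ (Lr L f (!b)) + finrank ℝ (Kr L f b)) + 1) * 2 ^ finrank ℝ L ≤
      8 * finrank ℝ L * 2 ^ finrank ℝ L := Nat.mul_le_mul_right _ (by omega)
  rw [← h6]
  nlinarith [h2, h3, h8]

theorem stable [Finite X] (L : Submodule ℝ (X → ℝ)) (hL : Good L)
    (hX : finrank ℝ L < Nat.card X) (hN : 2 * finrank ℝ L < nb L) :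
    8 * (Nat.card X * nb L) + 2 ^ finrank ℝ L ≤ 8 * finrank ℝ L * 2 ^ finrank ℝ L := by
  have hXne : Nonempty X := by
    by_contra hcon
    rw [not_nonempty_iff] at hcon
    rw [Nat.card_of_isEmpty] at hX
    omega
  have hnt : Nontrivial X := by
    by_contra hcon
    rw [not_nontrivial_iff_subsingleton] at hcon
    rw [card_one] at hX
    have := hL.one_le
    omega
  obtain ⟨x, y, hxy⟩ := hnt.exists_pair_ne
  obtain ⟨f, hf, hne⟩ := hL.exists_split hxy
  by_cases hfull : ∀ b, nb (Qr L f b) = 2 ^ finrank ℝ (Kr L f (!b))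
  swap
  · push Not at hfull
    obtain ⟨b, hb⟩ := hfull
    refine case1 L hL f hf hne (!b) ?_
    rwa [Bool.not_not]
  have hred : ∀ b, ∃ (P : Type) (π : Sb f b → P), Function.Surjective π ∧
      Nat.card P = finrank ℝ (Kr L f (!b)) ∧ Qr L f b = LinearMap.range (pull π) := by
    intro b
    have := hne b
    have h1 := full_reduce (Qr L f b) (one_mem_Qr L hL.one f hf b) (by rw [finrank_Qr]; exact hfull b)
    rwa [finrank_Qr] at h1
  choose P π hπ hcP hQ using hred
  have hfinP : ∀ b, Finite (P b) := fun b => Finite.of_surjective (π b) (hπ b)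
  have hneP : ∀ b, Nonempty (P b) := fun b => by
    have := hne b
    exact Nonempty.map (π b) inferInstance
  have hA := Kr_add L f
  have hk : ∀ b, 1 ≤ finrank ℝ (Kr L f b) := fun b => one_le_Kr L hL.one f hf b (hne _)
  have hkk := kk_le L f
  obtain ⟨e, he⟩ : ∃ e, finrank ℝ L = finrank ℝ (Kr L f true) + finrank ℝ (Kr L f false) + e := by
    have h1 := hA true
    have h2 : finrank ℝ (Kr L f false) ≤ finrank ℝ (Lr L f true) := hkk true
    exact ⟨finrank ℝ (Lr L f true) - finrank ℝ (Kr L f false), by omega⟩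
  have hDb : ∀ b, finrank ℝ (Lr L f b) = finrank ℝ (Kr L f (!b)) + e := by
    intro b
    have h1 := hA b
    cases b
    · rw [Bool.not_false]
      omega
    · rw [Bool.not_true]
      omega
  -- the size of the classes
  have hcls : ∀ b (p : P b), Nat.card {y // π b y = p} ≤ 2 ^ e := by
    intro b p
    have := hfinP b
    have h1 := fibre (Lr L f b) (hL.map _ Subtype.val_injective) (π b) (hπ b) ⊤ Submodule.mem_top
      (by rw [Submodule.map_top, ← hQ b]; exact Qr_le L f b) p
    rw [finrank_top, finrank_fun, hcP b, hDb b, pow_add, mul_comm] at h1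
    exact Nat.le_of_mul_le_mul_left h1 (Nat.pow_pos two_pos)
  have hsum : ∀ b, Nat.card (Sb f b) ≤ finrank ℝ (Kr L f (!b)) * 2 ^ e := by
    intro b
    have := hfinP b
    cases nonempty_fintype (P b)
    rw [card_fibres (π b), ← hcP b, Nat.card_eq_fintype_card, ← Finset.card_univ, ← smul_eq_mul,
      ← Finset.sum_const]
    exact Finset.sum_le_sum fun p _ => hcls b p
  by_cases hsmall : ∃ b, ∃ p : P b, 4 * Nat.card {y // π b y = p} ≤ 3 * 2 ^ e
  · -- one small class
    obtain ⟨b, p, hp⟩ := hsmall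
    have hn : 4 * Nat.card (Sb f b) + 2 ^ e ≤ 4 * finrank ℝ (Kr L f (!b)) * 2 ^ e := by
      classical
      have := hfinP b
      cases nonempty_fintype (P b)
      have h1 : ∑ q : P b, (4 * Nat.card {y // π b y = q} + if q = p then 2 ^ e else 0) ≤
          ∑ q : P b, 4 * 2 ^ e := by
        refine Finset.sum_le_sum fun q _ => ?_
        by_cases hq : q = p
        · subst hq
          rw [if_pos rfl]
          omega
        · rw [if_neg hq]
          have := hcls b q
          omega
      rw [Finset.sum_add_distrib, Finset.sum_ite_eq' Finset.univ p, if_pos (Finset.mem_univ p),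
        ← Finset.mul_sum, ← card_fibres (π b), Finset.sum_const, Finset.card_univ,
        ← Nat.card_eq_fintype_card, hcP b, smul_eq_mul] at h1
      calc _ ≤ _ := h1
        _ = _ := by ring
    have h2 := arith3 _ _ (nb (Qr L f b)) (nb (Qr L f (!b))) (finrank ℝ (Kr L f b)) _ e _ _
      (nb (Lr L f b)) (Kr_add L f b) (hDb b) (split L hL.one f hf b) (sideC L f b) (sideX L f b)
      (side L hL f b) hn
    have h3 := sideN L hL f hf (!b)
    rw [Bool.not_not] at h3
    have h4 := hA b
    have h5 := hA (!b)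
    have h6 := card_Sb f b
    have h8 : (4 * (finrank ℝ (Lr L f b) + finrank ℝ (Kr L f (!b))) +
        4 * (finrank ℝ (Lr L f (!b)) + finrank ℝ (Kr L f b))) * 2 ^ finrank ℝ L =
        8 * finrank ℝ L * 2 ^ finrank ℝ L := by
      congr 1
      omega
    rw [← h6]
    nlinarith [h2, h3, h8]
  push Not at hsmall
  -- the partition of the whole space
  let PP : Type := (b : Bool) × P b
  let Φ : X → PP := fun x => ⟨f x, π (f x) ⟨x, rfl⟩⟩
  have hPi : ∀ (b : Bool) (y : Sb f b), Φ y.1 = ⟨b, π b y⟩ := by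
    rintro b ⟨x, rfl⟩
    rfl
  have hΦ : Function.Surjective Φ := by
    rintro ⟨b, p⟩
    obtain ⟨y, rfl⟩ := hπ b p
    exact ⟨y.1, hPi b y⟩
  have hfinPP : Finite PP := Finite.of_surjective Φ hΦ
  have hnePP : Nonempty PP := Nonempty.map Φ inferInstance
  have hcPP : Nat.card PP = finrank ℝ (Kr L f true) + finrank ℝ (Kr L f false) := by
    have h1 : Nat.card PP = ∑ b, Nat.card (P b) := Nat.card_sigma
    rw [h1, Fintype.sum_bool, hcP, hcP, Bool.not_true, Bool.not_false, add_comm]
  have hrange : LinearMap.range (pull Φ) ≤ L := by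
    rintro _ ⟨u, rfl⟩
    have h1 : ∀ b, ∃ w ∈ Kr L f (!b), pull (inc f b) w = fun y => u ⟨b, π b y⟩ := by
      intro b
      have h2 : (fun y : Sb f b => u ⟨b, π b y⟩) ∈ Qr L f b := by
        rw [hQ b]
        exact ⟨fun p => u ⟨b, p⟩, rfl⟩
      obtain ⟨w, hw, e⟩ := h2
      exact ⟨w, hw, e⟩
    choose w hw hwe using h1
    have h2 : pull Φ u = w true + w false := by
      funext x
      cases hx : f x with
      | true =>
        have h3 : w true x = u ⟨true, π true ⟨x, hx⟩⟩ := congrFun (hwe true) ⟨x, hx⟩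
        have h4 : w false x = 0 := congrFun (LinearMap.mem_ker.mp (hw false).2) ⟨x, by simpa using hx⟩
        rw [Pi.add_apply, h3, h4, add_zero]
        show u (Φ x) = _
        rw [hPi true ⟨x, hx⟩]
      | false =>
        have h3 : w false x = u ⟨false, π false ⟨x, hx⟩⟩ := congrFun (hwe false) ⟨x, hx⟩
        have h4 : w true x = 0 := congrFun (LinearMap.mem_ker.mp (hw true).2) ⟨x, by simpa using hx⟩
        rw [Pi.add_apply, h3, h4, zero_add]
        show u (Φ x) = _
        rw [hPi false ⟨x, hx⟩]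
    rw [h2]
    exact L.add_mem (hw true).1 (hw false).1
  have hfib : ∀ q : PP, 3 * 2 ^ e < 4 * Nat.card {x // Φ x = q} := by
    rintro ⟨b, p⟩
    have h1 : Nat.card {y // π b y = p} ≤ Nat.card {x // Φ x = ⟨b, p⟩} := by
      refine Nat.card_le_card_of_injective
        (fun y => ⟨y.1.1, by rw [hPi b y.1, y.2]⟩) fun y y' h => ?_
      have h3 : y.1.1 = y'.1.1 := congrArg (fun z : {x // Φ x = ⟨b, p⟩} => z.1) h
      exact Subtype.ext (Subtype.ext h3)
    have h2 := hsmall b p
    omega
  have hXs : Nat.card X ≤ (finrank ℝ (Kr L f true) + finrank ℝ (Kr L f false)) * 2 ^ e := by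
    have h1 := hsum true
    have h2 := hsum false
    have h3 := card_Sb f true
    rw [Bool.not_true] at h1 h3
    rw [Bool.not_false] at h2
    rw [← h3, add_mul]
    omega
  have hF := lemF L hL Φ hΦ hrange e (by rw [hcPP]; exact he) hfib
  rw [hcPP] at hF
  have he1 : 1 ≤ e := by
    by_contra hcon
    have h0 : e = 0 := by omega
    subst h0
    rw [pow_zero, mul_one] at hXs
    omega
  have h1 := hk true
  have h2 := hk false
  rw [he]
  refine arith4 _ _ _ _ ?_ he1 hXs hF
  by_contra hcon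
  have h3 : finrank ℝ (Kr L f true) + finrank ℝ (Kr L f false) = 2 := by omega
  rw [h3] at hF he
  rw [he] at hN
  omega

end Pool.Agent.H711.KW
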