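import Pool.Agent.H711.KW.Closed

/-!
# The number of Boolean matrices of given rank with many rows and columns
-/

set_option autoImplicit false
set_option linter.unusedSectionVars false

namespace Pool.Agent.H711.KW

open Module

/-- The real rank of the 0/1 matrix of `F`. -/
noncomputable def rk {X Y : Type} [Fintype Y] (F : X → Y → Bool) : ℕ :=
  (Matrix.of fun (x : X) (y : Y) => if F x y then (1 : ℝ) else 0).rank

/-- the number of different rows -/
noncomputable def nrows {X Y : Type} (F : X → Y → Bool) : ℕ := Nat.card (Set.range F)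

variable {m n : ℕ}

theorem rk_eq (F : Fin m → Fin n → Bool) :
    rk F = finrank ℝ (Submodule.span ℝ (Set.range fun x => re (F x))) := by
  unfold rk
  rw [Matrix.rank_eq_finrank_span_row]
  rfl

/-- Coordinates with respect to a basis of rows. -/
theorem exists_basis (F : Fin m → Fin n → Bool) : ∃ ι : Fin (rk F) → Fin m,
    (∀ c : Fin (rk F) → ℝ, (∀ y, dt c (fun i => F (ι i) y) = 0) → c = 0) ∧
    ∀ x, ∃ c : Fin (rk F) → ℝ, ∀ y, re (F x) y = dt c (fun i => F (ι i) y) := by
  rw [rk_eq F]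
  obtain ⟨f, hf, hspan, hind⟩ :=
    Submodule.exists_fun_fin_finrank_span_eq ℝ (Set.range fun x => re (F x))
  choose ι hι using hf
  have hι' : ∀ i y, re (F (ι i)) y = f i y := fun i y => congrFun (hι i) y
  refine ⟨ι, ?_, ?_⟩
  · intro c hc
    have h1 : ∑ i, c i • f i = 0 := by
      funext y
      rw [Finset.sum_apply]
      have h2 := hc y
      unfold dt at h2
      rw [Pi.zero_apply, ← h2]
      refine Finset.sum_congr rfl fun i _ => ?_
      rw [Pi.smul_apply, smul_eq_mul, ← hι' i y]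
      rfl
    exact funext fun i => Fintype.linearIndependent_iff.mp hind c h1 i
  · intro x
    have h1 : re (F x) ∈ Submodule.span ℝ (Set.range f) := by
      rw [hspan]
      exact Submodule.subset_span ⟨x, rfl⟩
    obtain ⟨c, hc⟩ := (Submodule.mem_span_range_iff_exists_fun ℝ).mp h1
    refine ⟨c, fun y => ?_⟩
    rw [← hc, Finset.sum_apply]
    unfold dt
    refine Finset.sum_congr rfl fun i _ => ?_
    rw [Pi.smul_apply, smul_eq_mul, ← hι' i y]
    rfl

/-- the closed pairs which are small -/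
def Val (ρ : ℕ) (s : Fin (ρ * ρ) → (Fin ρ → Bool)) : Prop :=
  Finite (AS (Set.range s)) ∧
    8 * (Nat.card (TS (AS (Set.range s))) * Nat.card (AS (Set.range s))) ≤ (8 * ρ + 7) * 2 ^ ρ

/-- **The cover.** -/
theorem cover (ρ : ℕ) (F : Fin m → Fin n → Bool) (hρ : rk F = ρ) (hr : ρ + 1 < nrows F)
    (hc : ρ + 1 < nrows fun y x => F x y) :
    ∃ s : Fin (ρ * ρ) → (Fin ρ → Bool), Val ρ s ∧
      ∃ (τ : Fin n → TS (AS (Set.range s))) (c : Fin m → AS (Set.range s)),
        ∀ x y, F x y = decide (dt (c x).1 (τ y).1 = 1) := by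
  classical
  subst hρ
  obtain ⟨ι, hind, hcoord⟩ := exists_basis F
  choose c hc' using hcoord
  let τ : Fin n → (Fin (rk F) → Bool) := fun y i => F (ι i) y
  obtain ⟨s, hs⟩ := exists_few (Set.range τ)
  have hval : ∀ x y, dt (c x) (τ y) = 0 ∨ dt (c x) (τ y) = 1 := by
    intro x y
    rw [← hc' x y]
    exact re_int _ _
  have hFd : ∀ x y, F x y = decide (dt (c x) (τ y) = 1) := by
    intro x y
    rw [← hc' x y, re_apply]
    cases F x y <;> simp
  have hcA : ∀ x, c x ∈ AS (Set.range s) := by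
    intro x
    rw [hs]
    rintro _ ⟨y, rfl⟩
    exact hval x y
  have hτT : ∀ y, τ y ∈ TS (AS (Set.range s)) := by
    intro y a ha
    rw [hs] at ha
    exact ha _ ⟨y, rfl⟩
  refine ⟨s, ?_, fun y => ⟨τ y, hτT y⟩, fun x => ⟨c x, hcA x⟩, hFd⟩
  unfold Val
  rw [hs] at hcA hτT ⊢
  refine closed_pair (Set.range τ) ?_ ?_ ?_
  · intro a ha
    exact hind a fun y => ha _ ⟨y, rfl⟩
  · refine hc.trans_le ?_
    have hch : ∀ g : Set.range fun y x => F x y, ∃ y, (fun x => F x y) = g.1 := fun g => g.2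
    choose Y hY using hch
    refine Nat.card_le_card_of_injective (fun g => (⟨τ (Y g), hτT _⟩ : TS (AS (Set.range τ))))
      fun g g' h => Subtype.ext ?_
    have h1 : τ (Y g) = τ (Y g') := congrArg Subtype.val h
    rw [← hY g, ← hY g']
    funext x
    rw [hFd, hFd, h1]
  · intro hfin
    refine hr.trans_le ?_
    have hch : ∀ g : Set.range F, ∃ x, F x = g.1 := fun g => g.2
    choose Z hZ using hch
    refine Nat.card_le_card_of_injective (fun g => (⟨c (Z g), hcA _⟩ : AS (Set.range τ)))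
      fun g g' h => Subtype.ext ?_
    have h1 : c (Z g) = c (Z g') := congrArg Subtype.val h
    rw [← hZ g, ← hZ g']
    funext y
    rw [hFd, hFd, h1]

theorem arith5 (T A K P m n : ℕ) (h : 8 * (T * A) ≤ K * P) (hT : T ≤ P) (hmn : m ≤ n) :
    8 ^ m * (T ^ n * A ^ m) ≤ K ^ m * P ^ n := by
  obtain ⟨d, rfl⟩ := Nat.exists_eq_add_of_le hmn
  calc 8 ^ m * (T ^ (m + d) * A ^ m) = (8 * (T * A)) ^ m * T ^ d := by
        rw [mul_pow, mul_pow, pow_add]
        ring
    _ ≤ (K * P) ^ m * P ^ d := Nat.mul_le_mul (Nat.pow_le_pow_left h m) (Nat.pow_le_pow_left hT d)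
    _ = _ := by
        rw [mul_pow, pow_add]
        ring

/-- **The number of matrices of rank `ρ` with more than `ρ + 1` rows and columns.** -/
theorem upper (ρ : ℕ) (hmn : m ≤ n) :
    8 ^ m * Nat.card {F : Fin m → Fin n → Bool // rk F = ρ ∧ ρ + 1 < nrows F ∧
      ρ + 1 < nrows fun y x => F x y} ≤
      2 ^ (ρ * (ρ * ρ)) * ((8 * ρ + 7) ^ m * 2 ^ (ρ * n)) := by
  classical
  let Bs : Finset (Fin m → Fin n → Bool) := Finset.univ.filter fun F => rk F = ρ ∧
    ρ + 1 < nrows F ∧ ρ + 1 < nrows fun y x => F x y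
  let E : (Fin (ρ * ρ) → (Fin ρ → Bool)) → Finset (Fin m → Fin n → Bool) := fun s =>
    Finset.univ.filter fun F => Val ρ s ∧
      ∃ (τ : Fin n → TS (AS (Set.range s))) (c : Fin m → AS (Set.range s)),
        ∀ x y, F x y = decide (dt (c x).1 (τ y).1 = 1)
  have hcard : Nat.card {F : Fin m → Fin n → Bool // rk F = ρ ∧ ρ + 1 < nrows F ∧
      ρ + 1 < nrows fun y x => F x y} = Bs.card := by
    rw [Nat.card_eq_fintype_card, Fintype.card_subtype]
  have hsub : Bs ⊆ Finset.univ.biUnion E := by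
    intro F hF
    obtain ⟨h1, h2, h3⟩ := (Finset.mem_filter.mp hF).2
    obtain ⟨s, hs, h4⟩ := cover ρ F h1 h2 h3
    exact Finset.mem_biUnion.mpr ⟨s, Finset.mem_univ _, Finset.mem_filter.mpr
      ⟨Finset.mem_univ _, hs, h4⟩⟩
  have hE : ∀ s, 8 ^ m * (E s).card ≤ (8 * ρ + 7) ^ m * 2 ^ (ρ * n) := by
    intro s
    by_cases hs : Val ρ s
    · have := hs.1
      have h1 : (E s).card ≤ Nat.card ((Fin n → TS (AS (Set.range s))) ×
          (Fin m → AS (Set.range s))) := by
        rw [← Fintype.card_coe, ← Nat.card_eq_fintype_card]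
        have hch : ∀ F : E s, ∃ p : (Fin n → TS (AS (Set.range s))) × (Fin m → AS (Set.range s)),
            ∀ x y, F.1 x y = decide (dt (p.2 x).1 (p.1 y).1 = 1) := by
          intro F
          obtain ⟨-, τ, c, h⟩ := (Finset.mem_filter.mp F.2).2
          exact ⟨(τ, c), h⟩
        choose φ hφ using hch
        refine Nat.card_le_card_of_injective φ fun F F' h => Subtype.ext ?_
        funext x y
        rw [hφ, hφ, h]
      rw [Nat.card_prod, Nat.card_fun, Nat.card_fun, Nat.card_fin, Nat.card_fin] at h1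
      have hT : Nat.card (TS (AS (Set.range s))) ≤ 2 ^ ρ := by
        rw [← card_bool]
        exact Nat.card_le_card_of_injective Subtype.val Subtype.val_injective
      calc 8 ^ m * (E s).card ≤ 8 ^ m * (Nat.card (TS (AS (Set.range s))) ^ n *
            Nat.card (AS (Set.range s)) ^ m) := Nat.mul_le_mul_left _ h1
        _ ≤ (8 * ρ + 7) ^ m * (2 ^ ρ) ^ n := arith5 _ _ _ _ _ _ hs.2 hT hmn
        _ = _ := by rw [← pow_mul]
    · have : E s = ∅ := Finset.filter_eq_empty_iff.mpr fun F _ h => hs h.1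
      rw [this, Finset.card_empty, mul_zero]
      exact Nat.zero_le _
  rw [hcard]
  calc 8 ^ m * Bs.card ≤ 8 ^ m * ∑ s, (E s).card :=
        Nat.mul_le_mul_left _ ((Finset.card_le_card hsub).trans Finset.card_biUnion_le)
    _ = ∑ s, 8 ^ m * (E s).card := Finset.mul_sum _ _ _
    _ ≤ ∑ _s : Fin (ρ * ρ) → (Fin ρ → Bool), (8 * ρ + 7) ^ m * 2 ^ (ρ * n) :=
        Finset.sum_le_sum fun s _ => hE s
    _ = _ := by
        rw [Finset.sum_const, Finset.card_univ, smul_eq_mul, Fintype.card_fun, Fintype.card_fun,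
          Fintype.card_fin, Fintype.card_fin, Fintype.card_bool, ← pow_mul]

end Pool.Agent.H711.KW
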